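import Pool.Agent.W_7d29a1_ehr.NDim

/-!
# Ehrhard's inequality for sublevel sets of a convex function of a Gaussian vector

`q(s) = Phi^{-1}(P(L ≤ s))` is concave, for `L` convex and continuous on `ι → ℝ`.
-/

open MeasureTheory ProbabilityTheory Set Filter Topology

namespace Ehr

/-- clipping -/
noncomputable def clip (a b x : ℝ) : ℝ := max a (min b x)

lemma clip_cont (a b : ℝ) : Continuous (clip a b) := by unfold clip; fun_prop

lemma clip_abs {a b S : ℝ} (ha : |a| ≤ S) (hb : |b| ≤ S) (x : ℝ) : |clip a b x| ≤ S := by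
  unfold clip
  rw [abs_le] at ha hb ⊢
  exact ⟨ha.1.trans (le_max_left _ _), max_le ha.2 ((min_le_left _ _).trans hb.2)⟩

/-- the key inequality between clipped values -/
lemma clip_ineq {l m R S u v w : ℝ} (hl : 0 < l) (hm : 0 < m) (hlm : l + m = 1)
    (h : l * u + m * v ≤ w) (hR : 0 ≤ R) (hS : 0 ≤ S) :
    l * clip (-S) R u + m * clip (-S) R v
      ≤ clip (-(min l m * S - max l m * R)) R w := by
  have hcR : ∀ x, clip (-S) R x ≤ R := fun x => max_le (by linarith) (min_le_left _ _)
  unfold clip at *
  rcases le_total (-S) (min R u) with h1 | h1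
  · rcases le_total (-S) (min R v) with h2 | h2
    · rw [max_eq_right h1, max_eq_right h2]
      refine le_trans ?_ (le_max_right _ _)
      apply le_min
      · have a1 := mul_le_mul_of_nonneg_left (min_le_left R u) hl.le
        have a2 := mul_le_mul_of_nonneg_left (min_le_left R v) hm.le
        have a3 : l * R + m * R = R := by rw [← add_mul, hlm, one_mul]
        linarith
      · have a1 := mul_le_mul_of_nonneg_left (min_le_right R u) hl.le
        have a2 := mul_le_mul_of_nonneg_left (min_le_right R v) hm.le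
        linarith
    · refine le_trans ?_ (le_max_left _ _)
      rw [max_eq_left h2]
      have a1 := mul_le_mul_of_nonneg_left (hcR u) hl.le
      have b1 := mul_le_mul_of_nonneg_right (min_le_right l m) hS
      have b2 := mul_le_mul_of_nonneg_right (le_max_left l m) hR
      linarith
  · refine le_trans ?_ (le_max_left _ _)
    rw [max_eq_left h1]
    have a1 := mul_le_mul_of_nonneg_left (hcR v) hm.le
    have b1 := mul_le_mul_of_nonneg_right (min_le_left l m) hS
    have b2 := mul_le_mul_of_nonneg_right (le_max_right l m) hR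
    linarith

variable {ι : Type*} [Fintype ι]

/-- lower bound of the integral of `Phi ∘ F` by the level where `F = R` -/
lemma int_lower {F : (ι → ℝ) → ℝ} (hF : Continuous F) {A : Set (ι → ℝ)} (hA : MeasurableSet A)
    {R : ℝ} (h : ∀ x ∈ A, F x = R) : Phi R * (gpi ι).real A ≤ ∫ x, Phi (F x) ∂(gpi ι) := by
  have hi : Integrable (fun x => Phi (F x)) (gpi ι) := by
    apply Integrable.of_bound (C := 1) (Phi_cont.comp hF).aestronglyMeasurable
    exact ae_of_all _ fun y => by
      show |Phi (F y)| ≤ 1
      rw [abs_of_pos (Phi_pos _)]; exact Phi_le_one _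
  have h1 : ∫ x, A.indicator (fun _ => Phi R) x ∂(gpi ι) ≤ ∫ x, Phi (F x) ∂(gpi ι) := by
    apply integral_mono ((integrable_const _).indicator hA) hi
    intro x
    by_cases hx : x ∈ A
    · simp [hx, h x hx]
    · simp [hx, (Phi_pos _).le]
  rw [integral_indicator hA, setIntegral_const, smul_eq_mul] at h1
  linarith [mul_comm (Phi R) ((gpi ι).real A)]

lemma int_upper {H : (ι → ℝ) → ℝ} (hH : Continuous H) {A : Set (ι → ℝ)} (hA : MeasurableSet A)
    {S : ℝ} (h : ∀ x, x ∉ A → H x = -S) : ∫ x, Phi (H x) ∂(gpi ι) ≤ (gpi ι).real A + Phi (-S) := by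
  have hi : Integrable (fun x => Phi (H x)) (gpi ι) := by
    apply Integrable.of_bound (C := 1) (Phi_cont.comp hH).aestronglyMeasurable
    exact ae_of_all _ fun y => by
      show |Phi (H y)| ≤ 1
      rw [abs_of_pos (Phi_pos _)]; exact Phi_le_one _
  have h1 : ∫ x, Phi (H x) ∂(gpi ι) ≤ ∫ x, (A.indicator (fun _ => (1 : ℝ)) x + Phi (-S)) ∂(gpi ι) := by
    apply integral_mono hi (((integrable_const _).indicator hA).add (integrable_const _))
    intro x
    show Phi (H x) ≤ A.indicator (fun _ => (1 : ℝ)) x + Phi (-S)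
    by_cases hx : x ∈ A
    · rw [indicator_of_mem hx]
      linarith [Phi_le_one (H x), Phi_pos (-S)]
    · simp [hx, h x hx]
  rw [integral_add ((integrable_const _).indicator hA) (integrable_const _),
    integral_indicator hA, setIntegral_const] at h1
  simpa using h1

/-- **Ehrhard's inequality** for sublevel sets of one convex function -/
theorem ehrhard {L : (ι → ℝ) → ℝ} (hL : ConvexOn ℝ univ L) (hc : Continuous L)
    {l m a b s0 s1 : ℝ} (hl : 0 < l) (hm : 0 < m) (hlm : l + m = 1)
    (h0 : Phi a ≤ (gpi ι).real {x | L x ≤ s0}) (h1 : Phi b ≤ (gpi ι).real {x | L x ≤ s1}) :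
    Phi (l * a + m * b) ≤ (gpi ι).real {x | L x ≤ l * s0 + m * s1} := by
  set s := l * s0 + m * s1 with hs
  have mm : ∀ t, MeasurableSet {x | L x ≤ t} := fun t => (isClosed_le hc continuous_const).measurableSet
  -- step 1: the inequality at finite clipping levels
  have step1 : ∀ R e S : ℝ, 0 < e → 0 < R → max l m * R < min l m * S → R ≤ S →
      Phi (l * Psi (Phi R * Phi a) + m * Psi (Phi R * Phi b))
        ≤ (gpi ι).real {x | L x ≤ s + 2 * e} + Phi (-(min l m * S - max l m * R)) := by
    intro R e S he hR hS hRS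
    set S' := min l m * S - max l m * R with hS'
    have hS'0 : 0 < S' := by linarith
    set K := max R S' / e with hK
    have hK0 : 0 < K := div_pos (lt_max_of_lt_left hR) he
    have hKe : K * e = max R S' := div_mul_cancel₀ _ he.ne'
    have hmin1 : min l m ≤ 1 := by
      have := min_le_left l m
      linarith
    have hmin0 : 0 < min l m := lt_min hl hm
    have hmax0 : 0 < max l m := lt_max_of_lt_left hl
    have hS0 : 0 < S := lt_of_lt_of_le hR hRS
    have hS'S : S' ≤ S := by nlinarith [mul_pos hmax0 hR]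
    set F : (ι → ℝ) → ℝ := fun x => clip (-S) R (K * (s0 + e - L x)) with hF
    set G : (ι → ℝ) → ℝ := fun x => clip (-S) R (K * (s1 + e - L x)) with hG
    set H : (ι → ℝ) → ℝ := fun x => clip (-S') R (K * (s + e - L x)) with hH
    have cF : Continuous F := (clip_cont _ _).comp (by fun_prop)
    have cG : Continuous G := (clip_cont _ _).comp (by fun_prop)
    have cH : Continuous H := (clip_cont _ _).comp (by fun_prop)
    have aS : |(-S)| ≤ S := by rw [abs_neg, abs_of_pos hS0]
    have aR : |R| ≤ S := by rw [abs_of_pos hR]; exact hRS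
    have aS' : |(-S')| ≤ S := by rw [abs_neg, abs_of_pos hS'0]; exact hS'S
    have bF : ∀ x, |F x| ≤ S := fun x => clip_abs aS aR _
    have bG : ∀ x, |G x| ≤ S := fun x => clip_abs aS aR _
    have bH : ∀ x, |H x| ≤ S := fun x => clip_abs aS' aR _
    have hyp : ∀ x y, l * F x + m * G y ≤ H (l • x + m • y) := by
      intro x y
      apply clip_ineq hl hm hlm _ hR.le hS0.le
      have hconv : L (l • x + m • y) ≤ l * L x + m * L y := by
        have := hL.2 (mem_univ x) (mem_univ y) hl.le hm.le hlm
        simpa using this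
      have e1 : l * (K * (s0 + e - L x)) + m * (K * (s1 + e - L y))
          = K * (s + e - (l * L x + m * L y)) := by
        rw [hs]
        linear_combination (K * e) * hlm
      rw [e1]
      apply mul_le_mul_of_nonneg_left _ hK0.le
      linarith
    have main := fintype_dim hl hm hlm cF cG cH bF bG bH hyp
    have fF : ∀ x ∈ {x | L x ≤ s0}, F x = R := by
      intro x hx
      have hx' : L x ≤ s0 := hx
      have h2 : R ≤ K * (s0 + e - L x) := by
        have : K * e ≤ K * (s0 + e - L x) := mul_le_mul_of_nonneg_left (by linarith) hK0.le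
        linarith [le_max_left R S']
      simp only [hF, clip]
      rw [min_eq_left h2, max_eq_right (by linarith)]
    have fG : ∀ x ∈ {x | L x ≤ s1}, G x = R := by
      intro x hx
      have hx' : L x ≤ s1 := hx
      have h2 : R ≤ K * (s1 + e - L x) := by
        have : K * e ≤ K * (s1 + e - L x) := mul_le_mul_of_nonneg_left (by linarith) hK0.le
        linarith [le_max_left R S']
      simp only [hG, clip]
      rw [min_eq_left h2, max_eq_right (by linarith)]
    have fH : ∀ x, x ∉ {x | L x ≤ s + 2 * e} → H x = -S' := by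
      intro x hx
      have hx' : s + 2 * e < L x := not_le.1 hx
      have h2 : K * (s + e - L x) ≤ -S' := by
        have : K * (s + e - L x) ≤ K * (-e) := mul_le_mul_of_nonneg_left (by linarith) hK0.le
        have h3 := le_max_right R S'
        linarith [show K * (-e) = -(K * e) by ring]
      simp only [hH, clip]
      rw [min_eq_right (by linarith), max_eq_left h2]
    have i0 := int_lower cF (mm s0) fF
    have i1 := int_lower cG (mm s1) fG
    have i2 := int_upper cH (mm (s + 2 * e)) fH
    have mF := int_Phi_mem (gpi ι) (Phi_cont.comp cF).aestronglyMeasurable bF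
    have mG := int_Phi_mem (gpi ι) (Phi_cont.comp cG).aestronglyMeasurable bG
    have mH := int_Phi_mem (gpi ι) (Phi_cont.comp cH).aestronglyMeasurable bH
    have j0 : Psi (Phi R * Phi a) ≤ Psi (∫ x, Phi (F x) ∂(gpi ι)) := by
      apply Psi_mono (mul_pos (Phi_pos _) (Phi_pos _)) _ (lt_of_le_of_lt mF.2 (Phi_lt_one _))
      exact le_trans (mul_le_mul_of_nonneg_left h0 (Phi_pos _).le) i0
    have j1 : Psi (Phi R * Phi b) ≤ Psi (∫ x, Phi (G x) ∂(gpi ι)) := by
      apply Psi_mono (mul_pos (Phi_pos _) (Phi_pos _)) _ (lt_of_le_of_lt mG.2 (Phi_lt_one _))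
      exact le_trans (mul_le_mul_of_nonneg_left h1 (Phi_pos _).le) i1
    have j2 : l * Psi (Phi R * Phi a) + m * Psi (Phi R * Phi b) ≤ Psi (∫ x, Phi (H x) ∂(gpi ι)) := by
      have := mul_le_mul_of_nonneg_left j0 hl.le
      have := mul_le_mul_of_nonneg_left j1 hm.le
      linarith
    have j3 := (le_Psi (lt_of_lt_of_le (Phi_pos _) mH.1) (lt_of_le_of_lt mH.2 (Phi_lt_one _))).1 j2
    exact j3.trans i2
  -- step 2: S → ∞
  have hmin0 : 0 < min l m := lt_min hl hm
  have step2 : ∀ R e : ℝ, 0 < e → 0 < R →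
      Phi (l * Psi (Phi R * Phi a) + m * Psi (Phi R * Phi b)) ≤ (gpi ι).real {x | L x ≤ s + 2 * e} := by
    intro R e he hR
    have lim : Tendsto (fun S : ℝ => (gpi ι).real {x | L x ≤ s + 2 * e}
        + Phi (-(min l m * S - max l m * R))) atTop
        (𝓝 ((gpi ι).real {x | L x ≤ s + 2 * e} + 0)) := by
      apply Tendsto.const_add
      apply Phi_bot.comp
      apply tendsto_neg_atTop_atBot.comp
      apply tendsto_atTop_add_const_right
      exact tendsto_id.const_mul_atTop hmin0
    rw [add_zero] at lim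
    apply ge_of_tendsto lim
    filter_upwards [eventually_gt_atTop (max l m * R / min l m), eventually_ge_atTop R] with S h3 h4
    apply step1 R e S he hR _ h4
    rw [div_lt_iff₀ hmin0] at h3
    linarith
  -- step 3: R → ∞
  have step3 : ∀ e : ℝ, 0 < e → Phi (l * a + m * b) ≤ (gpi ι).real {x | L x ≤ s + 2 * e} := by
    intro e he
    have lim1 : ∀ a : ℝ, Tendsto (fun R : ℝ => Psi (Phi R * Phi a)) atTop (𝓝 a) := by
      intro a
      have h2 : Tendsto (fun R : ℝ => Phi R * Phi a) atTop (𝓝 (Phi a)) := by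
        simpa using Phi_top.mul_const (Phi a)
      have h3 := (Psi_contAt (Phi_pos a) (Phi_lt_one a)).tendsto.comp h2
      rwa [Psi_Phi] at h3
    have lim : Tendsto (fun R : ℝ => Phi (l * Psi (Phi R * Phi a) + m * Psi (Phi R * Phi b))) atTop
        (𝓝 (Phi (l * a + m * b))) :=
      (Phi_cont.tendsto _).comp (((lim1 a).const_mul l).add ((lim1 b).const_mul m))
    apply le_of_tendsto lim
    filter_upwards [eventually_gt_atTop 0] with R hR
    exact step2 R e he hR
  -- step 4: e → 0
  have lim4 : Tendsto (fun n : ℕ => (gpi ι).real {x | L x ≤ s + 2 * (1 / ((n : ℝ) + 1))}) atTop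
      (𝓝 ((gpi ι).real {x | L x ≤ s})) := by
    have e1 : {x | L x ≤ s} = ⋂ n : ℕ, {x | L x ≤ s + 2 * (1 / ((n : ℝ) + 1))} := by
      ext x
      simp only [mem_ofPred_eq, mem_iInter]
      constructor
      · intro h n
        have : (0 : ℝ) < 1 / ((n : ℝ) + 1) := by positivity
        linarith
      · intro h
        have lim5 : Tendsto (fun n : ℕ => s + 2 * (1 / ((n : ℝ) + 1))) atTop (𝓝 (s + 2 * 0)) :=
          (tendsto_one_div_add_atTop_nhds_zero_nat.const_mul 2).const_add s
        have := ge_of_tendsto' lim5 h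
        simpa using this
    rw [e1]
    have anti : Antitone fun n : ℕ => {x | L x ≤ s + 2 * (1 / ((n : ℝ) + 1))} := by
      intro n n' hnn x hx
      have hx' : L x ≤ s + 2 * (1 / ((n' : ℝ) + 1)) := hx
      show L x ≤ s + 2 * (1 / ((n : ℝ) + 1))
      have : 1 / ((n' : ℝ) + 1) ≤ 1 / ((n : ℝ) + 1) := by
        apply one_div_le_one_div_of_le (by positivity)
        have : (n : ℝ) ≤ n' := by exact_mod_cast hnn
        linarith
      linarith
    have := tendsto_measure_iInter_atTop (μ := gpi ι) (fun n => (mm _).nullMeasurableSet) anti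
      ⟨0, measure_ne_top _ _⟩
    exact (ENNReal.tendsto_toReal (measure_ne_top _ _)).comp this
  exact ge_of_tendsto' lim4 fun n => step3 _ (by positivity)

/-- upper tail: luck -/
theorem luck {L : (ι → ℝ) → ℝ} (hL : ConvexOn ℝ univ L) (hc : Continuous L)
    {a b s0 s1 t : ℝ} (ht : 0 ≤ t) (h0 : Phi a ≤ (gpi ι).real {x | L x ≤ s0})
    (h1 : (gpi ι).real {x | L x ≤ s1} ≤ Phi b) :
    (gpi ι).real {x | L x ≤ s1 + t * (s1 - s0)} ≤ Phi (b + t * (b - a)) := by
  rcases ht.eq_or_lt with rfl | ht
  · simpa using h1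
  by_contra hcon
  push Not at hcon
  obtain ⟨e, he, he2⟩ : ∃ e > 0, Phi (b + t * (b - a) + e) ≤ (gpi ι).real {x | L x ≤ s1 + t * (s1 - s0)} := by
    have hcont : ContinuousAt (fun e => Phi (b + t * (b - a) + e)) 0 :=
      (Phi_cont.comp (by fun_prop)).continuousAt
    have h3 : Phi (b + t * (b - a) + 0) < (gpi ι).real {x | L x ≤ s1 + t * (s1 - s0)} := by
      rwa [add_zero]
    have h4 := hcont.eventually (gt_mem_nhds h3)
    have h5 : ∀ᶠ e in 𝓝[>] (0 : ℝ), Phi (b + t * (b - a) + e) < (gpi ι).real {x | L x ≤ s1 + t * (s1 - s0)} :=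
      nhdsWithin_le_nhds h4
    obtain ⟨e, h6, h7⟩ := (h5.and self_mem_nhdsWithin).exists
    exact ⟨e, h7, h6.le⟩
  have key := ehrhard hL hc (l := t / (1 + t)) (m := 1 / (1 + t)) (by positivity) (by positivity)
    (by field_simp; ring) h0 he2
  have e1 : t / (1 + t) * s0 + 1 / (1 + t) * (s1 + t * (s1 - s0)) = s1 := by field_simp; ring
  rw [e1] at key
  have e2 : b < t / (1 + t) * a + 1 / (1 + t) * (b + t * (b - a) + e) := by
    have : t / (1 + t) * a + 1 / (1 + t) * (b + t * (b - a) + e) = b + e / (1 + t) := by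
      field_simp; ring
    rw [this]
    have : 0 < e / (1 + t) := by positivity
    linarith
  have := Phi_strictMono e2
  linarith

/-- lower tail: bad luck is sub-Gaussian at the unit `s1 - s0` -/
theorem unluck {L : (ι → ℝ) → ℝ} (hL : ConvexOn ℝ univ L) (hc : Continuous L)
    {a b s0 s1 t : ℝ} (ht : 0 ≤ t) (h0 : (gpi ι).real {x | L x ≤ s0} ≤ Phi a)
    (h1 : Phi b ≤ (gpi ι).real {x | L x ≤ s1}) :
    (gpi ι).real {x | L x ≤ s0 - t * (s1 - s0)} ≤ Phi (a - t * (b - a)) := by
  have := luck hL hc (a := b) (b := a) (s0 := s1) (s1 := s0) ht h1 h0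
  have e1 : s0 + t * (s0 - s1) = s0 - t * (s1 - s0) := by ring
  have e2 : a + t * (a - b) = a - t * (b - a) := by ring
  rwa [e1, e2] at this

end Ehr
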