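import Mathlib

/-!
# The Gaussian distribution function and its inverse
-/

open MeasureTheory ProbabilityTheory Set Filter Topology

namespace Ehr

/-- standard Gaussian measure on the line -/
noncomputable abbrev ga : Measure ℝ := gaussianReal 0 1

/-- standard Gaussian density -/
noncomputable def phi (x : ℝ) : ℝ := gaussianPDFReal 0 1 x

/-- standard Gaussian distribution function -/
noncomputable def Phi (x : ℝ) : ℝ := ∫ t in Iic x, phi t

lemma phi_eq (x : ℝ) : phi x = (√(2 * Real.pi))⁻¹ * Real.exp (-x ^ 2 / 2) := by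
  simp [phi, gaussianPDFReal]

lemma phi_pos (x : ℝ) : 0 < phi x := gaussianPDFReal_pos 0 1 x one_ne_zero

lemma phi_cont : Continuous phi := by
  have : phi = fun x => (√(2 * Real.pi))⁻¹ * Real.exp (-x ^ 2 / 2) := by
    funext x; exact phi_eq x
  rw [this]; fun_prop

lemma phi_int : Integrable phi := integrable_gaussianPDFReal 0 1

lemma phi_le_one (x : ℝ) : phi x ≤ 1 := by
  rw [phi_eq]
  have h1 : (1 : ℝ) ≤ √(2 * Real.pi) := by
    rw [show (1 : ℝ) = √1 by simp]
    exact Real.sqrt_le_sqrt (by nlinarith [Real.pi_gt_three])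
  have h2 : (√(2 * Real.pi))⁻¹ ≤ 1 := inv_le_one_of_one_le₀ h1
  have h3 : Real.exp (-x ^ 2 / 2) ≤ 1 := Real.exp_le_one_iff.2 (by nlinarith [sq_nonneg x])
  calc _ ≤ (1 : ℝ) * 1 := by
        apply mul_le_mul h2 h3 (Real.exp_pos _).le zero_le_one
    _ = 1 := by ring

lemma hasDerivAt_phi (x : ℝ) : HasDerivAt phi (-x * phi x) x := by
  have h : phi = fun x => (√(2 * Real.pi))⁻¹ * Real.exp (-x ^ 2 / 2) := by
    funext x; exact phi_eq x
  rw [h]
  have h1 : HasDerivAt (fun x : ℝ => -x ^ 2 / 2) (-x) x := by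
    have h0 : HasDerivAt (fun x : ℝ => x ^ 2) (2 * x) x := by simpa using hasDerivAt_pow 2 x
    have := (h0.neg).div_const 2
    exact this.congr_deriv (by ring)
  have h2 := (h1.exp).const_mul ((√(2 * Real.pi))⁻¹)
  exact h2.congr_deriv (by ring)

lemma phi_even (x : ℝ) : phi (-x) = phi x := by simp [phi_eq]

lemma phi_mono_abs {x y : ℝ} (h : |x| ≤ |y|) : phi y ≤ phi x := by
  rw [phi_eq, phi_eq]
  apply mul_le_mul_of_nonneg_left _ (by positivity)
  apply Real.exp_le_exp.2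
  have := sq_le_sq.2 h
  linarith

lemma hasDerivAt_Phi (x : ℝ) : HasDerivAt Phi (phi x) x := by
  have h1 : ∀ y, Phi y = Phi 0 + ∫ t in (0 : ℝ)..y, phi t := by
    intro y
    have := intervalIntegral.integral_Iic_sub_Iic (μ := volume) (f := phi) (a := 0) (b := y)
      phi_int.integrableOn phi_int.integrableOn
    unfold Phi
    linarith
  have h2 : HasDerivAt (fun y => Phi 0 + ∫ t in (0 : ℝ)..y, phi t) (phi x) x := by
    have := (intervalIntegral.integral_hasDerivAt_right (phi_int.intervalIntegrable (a := 0) (b := x))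
      (phi_cont.stronglyMeasurableAtFilter _ _) phi_cont.continuousAt)
    simpa using this.const_add (Phi 0)
  exact h2.congr_of_eventuallyEq (Eventually.of_forall h1)

lemma Phi_cont : Continuous Phi :=
  continuous_iff_continuousAt.2 fun x => (hasDerivAt_Phi x).continuousAt

lemma Phi_strictMono : StrictMono Phi := by
  apply strictMono_of_deriv_pos
  intro x
  rw [(hasDerivAt_Phi x).deriv]
  exact phi_pos x

lemma Phi_eq (x : ℝ) : Phi x = ga.real (Iic x) := by
  unfold Phi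
  rw [Measure.real, gaussianReal_apply_eq_integral 0 one_ne_zero, ENNReal.toReal_ofReal]
  · rfl
  · exact setIntegral_nonneg measurableSet_Iic fun y _ => gaussianPDFReal_nonneg 0 1 y

lemma Phi_nonneg (x : ℝ) : 0 ≤ Phi x := by rw [Phi_eq]; exact measureReal_nonneg

lemma Phi_le_one (x : ℝ) : Phi x ≤ 1 := by rw [Phi_eq]; exact measureReal_le_one

lemma Phi_pos (x : ℝ) : 0 < Phi x := lt_of_le_of_lt (Phi_nonneg (x - 1)) (Phi_strictMono (by linarith))

lemma Phi_lt_one (x : ℝ) : Phi x < 1 := lt_of_lt_of_le (Phi_strictMono (show x < x + 1 by linarith)) (Phi_le_one _)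

lemma Phi_top : Tendsto Phi atTop (𝓝 1) := by
  have h := tendsto_cdf_atTop (μ := ga)
  refine h.congr fun x => ?_
  rw [cdf_eq_real, Phi_eq]

lemma Phi_bot : Tendsto Phi atBot (𝓝 0) := by
  have h := tendsto_cdf_atBot (μ := ga)
  refine h.congr fun x => ?_
  rw [cdf_eq_real, Phi_eq]

lemma exists_Phi {p : ℝ} (h0 : 0 < p) (h1 : p < 1) : ∃ x, Phi x = p := by
  obtain ⟨a, ha⟩ := (Phi_bot.eventually (gt_mem_nhds h0)).exists
  obtain ⟨b, hb⟩ := (Phi_top.eventually (lt_mem_nhds h1)).exists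
  exact mem_range_of_exists_le_of_exists_ge Phi_cont ⟨a, ha.le⟩ ⟨b, hb.le⟩

open Classical in
/-- inverse of Phi on (0,1) -/
noncomputable def Psi (p : ℝ) : ℝ := if h : 0 < p ∧ p < 1 then (exists_Phi h.1 h.2).choose else 0

lemma Phi_Psi {p : ℝ} (h0 : 0 < p) (h1 : p < 1) : Phi (Psi p) = p := by
  unfold Psi
  rw [dif_pos ⟨h0, h1⟩]
  exact (exists_Phi h0 h1).choose_spec

lemma Psi_Phi (x : ℝ) : Psi (Phi x) = x :=
  Phi_strictMono.injective (Phi_Psi (Phi_pos x) (Phi_lt_one x))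

lemma Psi_le {p x : ℝ} (h0 : 0 < p) (h1 : p < 1) : Psi p ≤ x ↔ p ≤ Phi x := by
  constructor
  · intro h
    have := Phi_strictMono.monotone h
    rwa [Phi_Psi h0 h1] at this
  · intro h
    by_contra hc
    push Not at hc
    have := Phi_strictMono hc
    rw [Phi_Psi h0 h1] at this
    linarith

lemma le_Psi {p x : ℝ} (h0 : 0 < p) (h1 : p < 1) : x ≤ Psi p ↔ Phi x ≤ p := by
  constructor
  · intro h
    have := Phi_strictMono.monotone h
    rwa [Phi_Psi h0 h1] at this
  · intro h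
    by_contra hc
    push Not at hc
    have := Phi_strictMono hc
    rw [Phi_Psi h0 h1] at this
    linarith

lemma Psi_mono {p q : ℝ} (h0 : 0 < p) (hpq : p ≤ q) (h1 : q < 1) : Psi p ≤ Psi q := by
  rw [Psi_le h0 (lt_of_le_of_lt hpq h1), Phi_Psi (lt_of_lt_of_le h0 hpq) h1]
  exact hpq

/-- `Phi` is bi-Lipschitz on `[-S,S]` -/
lemma Phi_lip (x y : ℝ) : |Phi x - Phi y| ≤ |x - y| := by
  have h := Convex.norm_image_sub_le_of_norm_hasDerivWithin_le (f := Phi) (f' := phi) (C := 1)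
    (s := univ) (x := y) (y := x) (fun z _ => (hasDerivAt_Phi z).hasDerivWithinAt)
    (fun z _ => by rw [Real.norm_eq_abs, abs_of_pos (phi_pos z)]; exact phi_le_one z)
    convex_univ (mem_univ _) (mem_univ _)
  simpa [Real.norm_eq_abs] using h

lemma Phi_low {S x y : ℝ} (hx : |x| ≤ S) (hy : |y| ≤ S) : phi S * |x - y| ≤ |Phi x - Phi y| := by
  wlog h : x ≤ y generalizing x y
  · have := this hy hx (le_of_not_ge h)
    rwa [abs_sub_comm x y, abs_sub_comm (Phi x)]
  rcases h.eq_or_lt with h | h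
  · subst h; simp
  obtain ⟨z, hz, hz2⟩ := exists_hasDerivAt_eq_slope Phi phi h Phi_cont.continuousOn
    (fun z _ => hasDerivAt_Phi z)
  have h3 : phi S ≤ phi z := by
    apply phi_mono_abs
    rw [abs_of_nonneg (le_trans (abs_nonneg x) hx)]
    rw [abs_le] at hx hy ⊢
    exact ⟨by linarith [hz.1], by linarith [hz.2]⟩
  have h4 : Phi y - Phi x = phi z * (y - x) := by
    rw [hz2]; field_simp [sub_ne_zero.2 h.ne']
  rw [abs_sub_comm x y, abs_sub_comm (Phi x), h4, abs_mul, abs_of_pos (phi_pos z)]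
  exact mul_le_mul_of_nonneg_right h3 (abs_nonneg _)

lemma abs_Psi {S p : ℝ} (h0 : Phi (-S) ≤ p) (h1 : p ≤ Phi S) : |Psi p| ≤ S := by
  have hp0 : 0 < p := lt_of_lt_of_le (Phi_pos _) h0
  have hp1 : p < 1 := lt_of_le_of_lt h1 (Phi_lt_one _)
  rw [abs_le]
  exact ⟨(le_Psi hp0 hp1).2 h0, (Psi_le hp0 hp1).2 h1⟩

lemma Psi_lip {S p q : ℝ} (hp0 : Phi (-S) ≤ p) (hp1 : p ≤ Phi S) (hq0 : Phi (-S) ≤ q)
    (hq1 : q ≤ Phi S) : |Psi p - Psi q| ≤ |p - q| / phi S := by
  have h := Phi_low (abs_Psi hp0 hp1) (abs_Psi hq0 hq1)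
  rw [Phi_Psi (lt_of_lt_of_le (Phi_pos _) hp0) (lt_of_le_of_lt hp1 (Phi_lt_one _)),
    Phi_Psi (lt_of_lt_of_le (Phi_pos _) hq0) (lt_of_le_of_lt hq1 (Phi_lt_one _))] at h
  rw [le_div_iff₀ (phi_pos S)]
  linarith [mul_comm (phi S) |Psi p - Psi q|]

lemma Psi_contAt {p : ℝ} (h0 : 0 < p) (h1 : p < 1) : ContinuousAt Psi p := by
  set S := |Psi p| + 1 with hS
  have hlo : Phi (-S) < p := by
    rw [← Phi_Psi h0 h1]
    apply Phi_strictMono
    have := neg_abs_le (Psi p)
    linarith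
  have hhi : p < Phi S := by
    conv_lhs => rw [← Phi_Psi h0 h1]
    apply Phi_strictMono
    have := le_abs_self (Psi p)
    linarith
  rw [Metric.continuousAt_iff]
  intro e he
  refine ⟨min (e * phi S) (min (p - Phi (-S)) (Phi S - p)), ?_, ?_⟩
  · apply lt_min (mul_pos he (phi_pos S)) (lt_min (by linarith) (by linarith))
  · intro q hq
    rw [Real.dist_eq] at hq ⊢
    have hq1 : |q - p| < e * phi S := lt_of_lt_of_le hq (min_le_left _ _)
    have hq2 : |q - p| < p - Phi (-S) :=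
      lt_of_lt_of_le hq (le_trans (min_le_right _ _) (min_le_left _ _))
    have hq3 : |q - p| < Phi S - p :=
      lt_of_lt_of_le hq (le_trans (min_le_right _ _) (min_le_right _ _))
    rw [abs_lt] at hq2 hq3
    have := Psi_lip (S := S) (p := q) (q := p) (by linarith [hq2.1]) (by linarith [hq3.2])
      hlo.le hhi.le
    refine lt_of_le_of_lt this ?_
    rw [div_lt_iff₀ (phi_pos S)]
    exact hq1

lemma hasDerivAt_Psi {p : ℝ} (h0 : 0 < p) (h1 : p < 1) : HasDerivAt Psi (phi (Psi p))⁻¹ p := by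
  apply HasDerivAt.of_local_left_inverse (Psi_contAt h0 h1) (hasDerivAt_Phi (Psi p)) (phi_pos _).ne'
  filter_upwards [Ioo_mem_nhds h0 h1] with q hq
  exact Phi_Psi hq.1 hq.2

end Ehr
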