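import Pool.Agent.W_7d29a1_ehr.Smooth

/-!
# Composition with the inverse distribution function
-/

open MeasureTheory ProbabilityTheory Set Filter Topology

namespace Ehr

lemma phi_lipS {S x y : ℝ} (hx : |x| ≤ S) (hy : |y| ≤ S) : |phi x - phi y| ≤ S * |x - y| := by
  have h := Convex.norm_image_sub_le_of_norm_hasDerivWithin_le (f := phi) (f' := fun z => -z * phi z)
    (C := S) (s := Icc (-S) S) (x := y) (y := x) (fun z _ => (hasDerivAt_phi z).hasDerivWithinAt)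
    (fun z hz => by
      rw [Real.norm_eq_abs, abs_mul, abs_neg, abs_of_pos (phi_pos z)]
      have h1 : |z| ≤ S := abs_le.2 hz
      calc |z| * phi z ≤ S * 1 := by
            apply mul_le_mul h1 (phi_le_one z) (phi_pos z).le (le_trans (abs_nonneg z) h1)
        _ = S := mul_one S)
    (convex_Icc _ _) (abs_le.1 hy) (abs_le.1 hx)
  simpa [Real.norm_eq_abs] using h

lemma phi_geS {S x : ℝ} (hx : |x| ≤ S) : phi S ≤ phi x := by
  apply phi_mono_abs
  rwa [abs_of_nonneg (le_trans (abs_nonneg x) hx)]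

lemma inv_phi_le {S x : ℝ} (hx : |x| ≤ S) : (phi x)⁻¹ ≤ (phi S)⁻¹ :=
  inv_anti₀ (phi_pos S) (phi_geS hx)

lemma inv_phi_lip {S x y : ℝ} (hx : |x| ≤ S) (hy : |y| ≤ S) :
    |(phi x)⁻¹ - (phi y)⁻¹| ≤ S / phi S ^ 2 * |x - y| := by
  have hS : 0 ≤ S := le_trans (abs_nonneg x) hx
  have e : (phi x)⁻¹ - (phi y)⁻¹ = (phi y - phi x) * ((phi x)⁻¹ * (phi y)⁻¹) := by
    field_simp [(phi_pos x).ne', (phi_pos y).ne']
  rw [e, abs_mul, abs_of_pos (mul_pos (inv_pos.2 (phi_pos x)) (inv_pos.2 (phi_pos y)))]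
  have h1 : |phi y - phi x| ≤ S * |x - y| := by
    have := phi_lipS hy hx
    rwa [abs_sub_comm y x] at this
  have h2 : (phi x)⁻¹ * (phi y)⁻¹ ≤ (phi S)⁻¹ * (phi S)⁻¹ :=
    mul_le_mul (inv_phi_le hx) (inv_phi_le hy) (inv_pos.2 (phi_pos y)).le (inv_pos.2 (phi_pos S)).le
  calc |phi y - phi x| * ((phi x)⁻¹ * (phi y)⁻¹) ≤ (S * |x - y|) * ((phi S)⁻¹ * (phi S)⁻¹) :=
        mul_le_mul h1 h2 (by have := phi_pos x; have := phi_pos y; positivity) (by positivity)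
    _ = S / phi S ^ 2 * |x - y| := by field_simp

/-- product of bounded Lipschitz functions -/
lemma mul_lip {u v : ℝ → ℝ} {A B a b : ℝ} (hu : ∀ x, |u x| ≤ A) (hv : ∀ x, |v x| ≤ B)
    (lu : ∀ x y, |u x - u y| ≤ a * |x - y|) (lv : ∀ x y, |v x - v y| ≤ b * |x - y|) (x y : ℝ) :
    |u x * v x - u y * v y| ≤ (A * b + a * B) * |x - y| := by
  have e : u x * v x - u y * v y = u x * (v x - v y) + (u x - u y) * v y := by ring
  rw [e]
  have hA : 0 ≤ A := le_trans (abs_nonneg _) (hu 0)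
  have hB : 0 ≤ B := le_trans (abs_nonneg _) (hv 0)
  calc _ ≤ |u x * (v x - v y)| + |(u x - u y) * v y| := abs_add_le _ _
    _ = |u x| * |v x - v y| + |u x - u y| * |v y| := by rw [abs_mul, abs_mul]
    _ ≤ A * (b * |x - y|) + (a * |x - y|) * B := by
        apply add_le_add
        · exact mul_le_mul (hu x) (lv x y) (abs_nonneg _) hA
        · exact mul_le_mul (lu x y) (hv y) (abs_nonneg _) (le_trans (abs_nonneg _) (lu x y))
    _ = _ := by ring

lemma Psi_exp {S p q : ℝ} (hp0 : Phi (-S) ≤ p) (hp1 : p ≤ Phi S) (hq0 : Phi (-S) ≤ q)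
    (hq1 : q ≤ Phi S) : |Psi q - Psi p - (q - p) * (phi (Psi p))⁻¹| ≤ S / phi S ^ 3 * (q - p) ^ 2 := by
  have hS : 0 ≤ S := le_trans (abs_nonneg _) (abs_Psi hp0 hp1)
  have hin : ∀ t ∈ Icc (Phi (-S)) (Phi S), 0 < t ∧ t < 1 := fun t ht =>
    ⟨lt_of_lt_of_le (Phi_pos _) ht.1, lt_of_le_of_lt ht.2 (Phi_lt_one _)⟩
  have hseg : ∀ t ∈ uIcc p q, t ∈ Icc (Phi (-S)) (Phi S) := by
    intro t ht
    rcases le_total p q with h | h
    · rw [uIcc_of_le h] at ht; exact ⟨hp0.trans ht.1, ht.2.trans hq1⟩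
    · rw [uIcc_of_ge h] at ht; exact ⟨hq0.trans ht.1, ht.2.trans hp1⟩
  have h := Convex.norm_image_sub_le_of_norm_hasDerivWithin_le
    (f := fun t => Psi t - Psi p - (t - p) * (phi (Psi p))⁻¹)
    (f' := fun t => (phi (Psi t))⁻¹ - (phi (Psi p))⁻¹)
    (C := S / phi S ^ 3 * |q - p|) (s := uIcc p q) (x := p) (y := q)
    (fun t ht => by
      have h1 := hin t (hseg t ht)
      have h2 := ((hasDerivAt_Psi h1.1 h1.2).sub_const (Psi p)).fun_sub
        (((hasDerivAt_id' t).sub_const p).mul_const ((phi (Psi p))⁻¹))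
      exact (h2.congr_deriv (by ring)).hasDerivWithinAt)
    (fun t ht => by
      rw [Real.norm_eq_abs]
      have h1 := hseg t ht
      have h2 := inv_phi_lip (abs_Psi h1.1 h1.2) (abs_Psi hp0 hp1)
      have h3 := Psi_lip h1.1 h1.2 hp0 hp1
      have h4 : |t - p| ≤ |q - p| := by
        rw [mem_uIcc] at ht
        rcases ht with ht | ht
        · rw [abs_of_nonneg (by linarith [ht.1]), abs_of_nonneg (by linarith [ht.1, ht.2])]
          linarith [ht.2]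
        · rw [abs_of_nonpos (by linarith [ht.2]), abs_of_nonpos (by linarith [ht.1, ht.2])]
          linarith [ht.1]
      have hc := phi_pos S
      calc _ ≤ _ := h2
        _ ≤ S / phi S ^ 2 * (|t - p| / phi S) := by gcongr
        _ ≤ S / phi S ^ 2 * (|q - p| / phi S) := by gcongr
        _ = S / phi S ^ 3 * |q - p| := by field_simp)
    (convex_uIcc _ _) left_mem_uIcc right_mem_uIcc
  have e : (fun t => Psi t - Psi p - (t - p) * (phi (Psi p))⁻¹) q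
      - (fun t => Psi t - Psi p - (t - p) * (phi (Psi p))⁻¹) p
      = Psi q - Psi p - (q - p) * (phi (Psi p))⁻¹ := by simp
  rw [e, Real.norm_eq_abs, Real.norm_eq_abs] at h
  calc _ ≤ _ := h
    _ = S / phi S ^ 3 * (q - p) ^ 2 := by rw [mul_assoc, ← sq, sq_abs]

/-- the constant -/
noncomputable def KK (S M : ℝ) : ℝ :=
  1 + M / phi S + (M * (S / phi S ^ 2 * (M / phi S)) + M * (phi S)⁻¹)
    + S * (M / phi S) ^ 2
    + (S * (2 * ((M / phi S) * (M * (S / phi S ^ 2 * (M / phi S)) + M * (phi S)⁻¹)))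
      + (M / phi S) * (M / phi S) ^ 2)

section
variable {S M : ℝ} {f f1 f2 : ℝ → ℝ}

lemma Fc.M0 (h : Fc S M f f1 f2) : 0 ≤ M := le_trans (abs_nonneg _) (h.b1 0)
lemma Fc.bdPsi (h : Fc S M f f1 f2) (x : ℝ) : |Psi (f x)| ≤ S := abs_Psi (h.lo x) (h.hi x)
lemma Fc.S0 (h : Fc S M f f1 f2) : 0 ≤ S := le_trans (abs_nonneg _) (h.bdPsi 0)
lemma Fc.pos (h : Fc S M f f1 f2) (x : ℝ) : 0 < f x := lt_of_lt_of_le (Phi_pos _) (h.lo x)
lemma Fc.lt1 (h : Fc S M f f1 f2) (x : ℝ) : f x < 1 := lt_of_le_of_lt (h.hi x) (Phi_lt_one _)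
lemma Fc.cont (h : Fc S M f f1 f2) : Continuous f :=
  continuous_iff_continuousAt.2 fun x => (h.d1 x).continuousAt
lemma Fc.abs_le_one (h : Fc S M f f1 f2) (x : ℝ) : |f x| ≤ 1 := by
  rw [abs_le]; constructor <;> linarith [h.pos x, h.lt1 x]

lemma Fc.lipf (h : Fc S M f f1 f2) (x y : ℝ) : |f x - f y| ≤ M * |x - y| := by
  have h := Convex.norm_image_sub_le_of_norm_hasDerivWithin_le (f := f) (f' := f1) (C := M)
    (s := univ) (x := y) (y := x) (fun z _ => (h.d1 z).hasDerivWithinAt)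
    (fun z _ => by rw [Real.norm_eq_abs]; exact h.b1 z) convex_univ (mem_univ _) (mem_univ _)
  simpa [Real.norm_eq_abs] using h

lemma Fc.lipf1 (h : Fc S M f f1 f2) (x y : ℝ) : |f1 x - f1 y| ≤ M * |x - y| := by
  have h := Convex.norm_image_sub_le_of_norm_hasDerivWithin_le (f := f1) (f' := f2) (C := M)
    (s := univ) (x := y) (y := x) (fun z _ => (h.d2 z).hasDerivWithinAt)
    (fun z _ => by rw [Real.norm_eq_abs]; exact h.b2 z) convex_univ (mem_univ _) (mem_univ _)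
  simpa [Real.norm_eq_abs] using h

lemma Fc.lipPsi (h : Fc S M f f1 f2) (x y : ℝ) :
    |Psi (f x) - Psi (f y)| ≤ M / phi S * |x - y| := by
  have h1 := Psi_lip (h.lo x) (h.hi x) (h.lo y) (h.hi y)
  have h2 := h.lipf x y
  have hc := phi_pos S
  calc _ ≤ _ := h1
    _ ≤ M * |x - y| / phi S := by gcongr
    _ = _ := by ring

/-- `Psi ∘ f` is admissible -/
lemma comp_adm (h : Fc S M f f1 f2) :
    Adm S (KK S M) (fun x => Psi (f x)) (fun x => f1 x * (phi (Psi (f x)))⁻¹)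
      (fun x => f2 x * (phi (Psi (f x)))⁻¹ + Psi (f x) * (f1 x * (phi (Psi (f x)))⁻¹) ^ 2) := by
  have hM := h.M0
  have hS := h.S0
  have hc := phi_pos S
  -- bounds
  have bu : ∀ x, |(phi (Psi (f x)))⁻¹| ≤ (phi S)⁻¹ := fun x => by
    rw [abs_of_pos (inv_pos.2 (phi_pos _))]; exact inv_phi_le (h.bdPsi x)
  have lu : ∀ x y, |(phi (Psi (f x)))⁻¹ - (phi (Psi (f y)))⁻¹|
      ≤ (S / phi S ^ 2 * (M / phi S)) * |x - y| := fun x y => by
    have h1 := inv_phi_lip (h.bdPsi x) (h.bdPsi y)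
    have h2 := h.lipPsi x y
    calc _ ≤ _ := h1
      _ ≤ S / phi S ^ 2 * (M / phi S * |x - y|) := by gcongr
      _ = _ := by ring
  have b1 : ∀ x, |f1 x * (phi (Psi (f x)))⁻¹| ≤ M / phi S := fun x => by
    rw [abs_mul]
    calc _ ≤ M * (phi S)⁻¹ := mul_le_mul (h.b1 x) (bu x) (abs_nonneg _) hM
      _ = _ := by rw [div_eq_mul_inv]
  have l1 := mul_lip (u := f1) (v := fun x => (phi (Psi (f x)))⁻¹) h.b1 bu h.lipf1 lu
  have b2 : ∀ x, |f2 x * (phi (Psi (f x)))⁻¹| ≤ M / phi S := fun x => by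
    rw [abs_mul]
    calc _ ≤ M * (phi S)⁻¹ := mul_le_mul (h.b2 x) (bu x) (abs_nonneg _) hM
      _ = _ := by rw [div_eq_mul_inv]
  have l2 := mul_lip (u := f2) (v := fun x => (phi (Psi (f x)))⁻¹) h.b2 bu h.l2 lu
  have b3 : ∀ x, |(f1 x * (phi (Psi (f x)))⁻¹) * (f1 x * (phi (Psi (f x)))⁻¹)|
      ≤ (M / phi S) ^ 2 := fun x => by
    rw [abs_mul, sq]
    exact mul_le_mul (b1 x) (b1 x) (abs_nonneg _) (by positivity)
  have l3 := mul_lip (u := fun x => f1 x * (phi (Psi (f x)))⁻¹)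
    (v := fun x => f1 x * (phi (Psi (f x)))⁻¹) b1 b1 l1 l1
  have l4 := mul_lip (u := fun x => Psi (f x))
    (v := fun x => (f1 x * (phi (Psi (f x)))⁻¹) * (f1 x * (phi (Psi (f x)))⁻¹))
    h.bdPsi b3 h.lipPsi l3
  have b4 : ∀ x, |Psi (f x) * ((f1 x * (phi (Psi (f x)))⁻¹) * (f1 x * (phi (Psi (f x)))⁻¹))|
      ≤ S * (M / phi S) ^ 2 := fun x => by
    rw [abs_mul]
    exact mul_le_mul (h.bdPsi x) (b3 x) (abs_nonneg _) hS
  have q1 : 0 ≤ M / phi S := by positivity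
  have q2 : 0 ≤ M * (S / phi S ^ 2 * (M / phi S)) + M * (phi S)⁻¹ := by positivity
  have q3 : 0 ≤ S * (M / phi S) ^ 2 := by positivity
  have q4 : 0 ≤ S * (2 * ((M / phi S) * (M * (S / phi S ^ 2 * (M / phi S)) + M * (phi S)⁻¹)))
      + (M / phi S) * (M / phi S) ^ 2 := by positivity
  refine ⟨h.bdPsi, fun x => ?_, fun x => ?_, fun x => ?_, fun x => ?_, fun x y => ?_⟩
  · have h1 := (hasDerivAt_Psi (h.pos x) (h.lt1 x)).comp x (h.d1 x)
    exact h1.congr_deriv (by ring)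
  · have h1 := (hasDerivAt_Psi (h.pos x) (h.lt1 x)).comp x (h.d1 x)
    have h2 := (hasDerivAt_phi (Psi (f x))).comp x h1
    have h3 := h2.inv (by exact (phi_pos _).ne')
    have h4 := (h.d2 x).mul h3
    refine h4.congr_deriv ?_
    simp only [Function.comp, Pi.inv_apply]
    have hp := (phi_pos (Psi (f x))).ne'
    field_simp
  · exact (b1 x).trans (by unfold KK; linarith)
  · rw [sq]
    exact ((abs_add_le _ _).trans (add_le_add (b2 x) (b4 x))).trans (by unfold KK; linarith)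
  · have e : f2 x * (phi (Psi (f x)))⁻¹ + Psi (f x) * (f1 x * (phi (Psi (f x)))⁻¹) ^ 2
        - (f2 y * (phi (Psi (f y)))⁻¹ + Psi (f y) * (f1 y * (phi (Psi (f y)))⁻¹) ^ 2)
        = (f2 x * (phi (Psi (f x)))⁻¹ - f2 y * (phi (Psi (f y)))⁻¹)
        + (Psi (f x) * ((f1 x * (phi (Psi (f x)))⁻¹) * (f1 x * (phi (Psi (f x)))⁻¹))
          - Psi (f y) * ((f1 y * (phi (Psi (f y)))⁻¹) * (f1 y * (phi (Psi (f y)))⁻¹))) := by ring
    rw [e]
    refine ((abs_add_le _ _).trans (add_le_add (l2 x y) (l4 x y))).trans ?_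
    rw [← add_mul]
    apply mul_le_mul_of_nonneg_right _ (abs_nonneg _)
    unfold KK
    have q5 : M / phi S * (M * (S / phi S ^ 2 * (M / phi S)) + M * (phi S)⁻¹)
        + (M * (S / phi S ^ 2 * (M / phi S)) + M * (phi S)⁻¹) * (M / phi S)
        = 2 * ((M / phi S) * (M * (S / phi S ^ 2 * (M / phi S)) + M * (phi S)⁻¹)) := by ring
    rw [q5]
    linarith

/-- error constant of one step -/
noncomputable def KE (S M : ℝ) : ℝ :=
  S / phi S ^ 3 * (M * C3 + M) ^ 2 + M * C3 * (phi S)⁻¹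

lemma KK_pos (h : Fc S M f f1 f2) : 0 < KK S M := by
  have hM := h.M0
  have hS := h.S0
  have hc := phi_pos S
  unfold KK
  positivity

lemma step_exp (h : Fc S M f f1 f2) {r : ℝ} (hr : 0 < r) (hr1 : r ≤ 1) (x : ℝ) :
    |Psi (P r f x) - Psi (f x) - r ^ 2 / 2 *
      ((f2 x * (phi (Psi (f x)))⁻¹ + Psi (f x) * (f1 x * (phi (Psi (f x)))⁻¹) ^ 2)
        - Psi (f x) * (f1 x * (phi (Psi (f x)))⁻¹) ^ 2)| ≤ KE S M * r ^ 3 := by
  have hM := h.M0
  have hS := h.S0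
  have hc := phi_pos S
  have hC := C3_nonneg
  have hP := P_fc h r
  have h1 := Psi_exp (h.lo x) (h.hi x) (hP.lo x) (hP.hi x)
  have h2 := P_exp h hr.le x
  have h3 : |P r f x - f x| ≤ (M * C3 + M) * r ^ 2 := by
    have e : P r f x - f x = (P r f x - f x - r ^ 2 / 2 * f2 x) + r ^ 2 / 2 * f2 x := by ring
    rw [e]
    refine (abs_add_le _ _).trans ?_
    have h4 : |r ^ 2 / 2 * f2 x| ≤ M * r ^ 2 := by
      rw [abs_mul, abs_of_pos (by positivity : (0 : ℝ) < r ^ 2 / 2)]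
      have := h.b2 x
      have h5 : r ^ 2 / 2 * |f2 x| ≤ r ^ 2 / 2 * M := mul_le_mul_of_nonneg_left this (by positivity)
      have h6 : 0 ≤ r ^ 2 * M := by positivity
      linarith
    have h7 : M * C3 * r ^ 3 ≤ M * C3 * r ^ 2 :=
      mul_le_mul_of_nonneg_left (pow_le_pow_of_le_one hr.le hr1 (by norm_num)) (by positivity)
    linarith
  have h5 : (P r f x - f x) ^ 2 ≤ (M * C3 + M) ^ 2 * r ^ 3 := by
    rw [← sq_abs]
    calc |P r f x - f x| ^ 2 ≤ ((M * C3 + M) * r ^ 2) ^ 2 := pow_le_pow_left₀ (abs_nonneg _) h3 2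
      _ = (M * C3 + M) ^ 2 * r ^ 4 := by ring
      _ ≤ (M * C3 + M) ^ 2 * r ^ 3 :=
        mul_le_mul_of_nonneg_left (pow_le_pow_of_le_one hr.le hr1 (by norm_num)) (sq_nonneg _)
  have e : Psi (P r f x) - Psi (f x) - r ^ 2 / 2 *
      ((f2 x * (phi (Psi (f x)))⁻¹ + Psi (f x) * (f1 x * (phi (Psi (f x)))⁻¹) ^ 2)
        - Psi (f x) * (f1 x * (phi (Psi (f x)))⁻¹) ^ 2)
      = (Psi (P r f x) - Psi (f x) - (P r f x - f x) * (phi (Psi (f x)))⁻¹)
        + (P r f x - f x - r ^ 2 / 2 * f2 x) * (phi (Psi (f x)))⁻¹ := by ring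
  rw [e]
  refine (abs_add_le _ _).trans ?_
  have h6 : |(P r f x - f x - r ^ 2 / 2 * f2 x) * (phi (Psi (f x)))⁻¹|
      ≤ (M * C3 * r ^ 3) * (phi S)⁻¹ := by
    rw [abs_mul, abs_of_pos (inv_pos.2 (phi_pos (Psi (f x))))]
    exact mul_le_mul h2 (inv_phi_le (h.bdPsi x)) (inv_pos.2 (phi_pos _)).le (by positivity)
  have h7 : S / phi S ^ 3 * (P r f x - f x) ^ 2 ≤ S / phi S ^ 3 * ((M * C3 + M) ^ 2 * r ^ 3) :=
    mul_le_mul_of_nonneg_left h5 (by positivity)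
  unfold KE
  calc _ ≤ S / phi S ^ 3 * ((M * C3 + M) ^ 2 * r ^ 3) + (M * C3 * r ^ 3) * (phi S)⁻¹ :=
        add_le_add (h1.trans h7) h6
    _ = _ := by ring

end

end Ehr
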