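import Pool.Agent.W_7d29a1_ehr.Comp

/-!
# Iteration of the Gaussian step; the one dimensional functional inequality for smooth functions
-/

open MeasureTheory ProbabilityTheory Set Filter Topology

namespace Ehr

lemma map_mul (r : ℝ) : ga.map (fun y => r * y) = gaussianReal 0 (.mk (r ^ 2) (sq_nonneg r)) := by
  have h := gaussianReal_map_const_mul (μ := 0) (v := 1) r
  simpa using h

lemma gauss2 {f : ℝ → ℝ} {C : ℝ} (hf : Continuous f) (hb : ∀ x, |f x| ≤ C) (r s x : ℝ) :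
    P r (P s f) x = P (√(r ^ 2 + s ^ 2)) f x := by
  have h1 : P r (P s f) x = ∫ w, f (x + w) ∂((ga.map (fun y => r * y)) ∗ (ga.map (fun y => s * y))) := by
    rw [integral_conv (Integrable.of_bound (C := C)
      ((by fun_prop : Continuous fun w => f (x + w)).aestronglyMeasurable)
      (ae_of_all _ fun y => by rw [Real.norm_eq_abs]; exact hb _))]
    rw [integral_map (by fun_prop)]
    · unfold P
      congr 1
      funext y
      rw [integral_map (by fun_prop)
        ((by fun_prop : Continuous fun z => f (x + (r * y + z))).aestronglyMeasurable)]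
      congr 1
      funext z
      rw [add_assoc]
    · apply StronglyMeasurable.aestronglyMeasurable
      apply Measurable.stronglyMeasurable
      have hc : StronglyMeasurable (fun p : ℝ × ℝ => f (x + (p.1 + p.2))) :=
        (by fun_prop : Continuous fun p : ℝ × ℝ => f (x + (p.1 + p.2))).stronglyMeasurable
      exact hc.integral_prod_right.measurable
  rw [h1, map_mul, map_mul, gaussianReal_conv_gaussianReal]
  have h2 : P (√(r ^ 2 + s ^ 2)) f x = ∫ w, f (x + w) ∂(ga.map (fun y => √(r ^ 2 + s ^ 2) * y)) := by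
    rw [integral_map (by fun_prop)
      ((by fun_prop : Continuous fun z => f (x + z)).aestronglyMeasurable)]
    rfl
  rw [h2, map_mul]
  congr 2
  · simp
  · ext
    simp only [NNReal.coe_add, NNReal.coe_mk]
    rw [Real.sq_sqrt (by positivity)]

/-- iterated step -/
noncomputable def Pn (r : ℝ) : ℕ → (ℝ → ℝ) → (ℝ → ℝ)
  | 0, f => f
  | n + 1, f => P r (Pn r n f)

lemma Pn_fc {S M : ℝ} {f f1 f2 : ℝ → ℝ} (h : Fc S M f f1 f2) (r : ℝ) (n : ℕ) :
    ∃ g1 g2, Fc S M (Pn r n f) g1 g2 := by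
  induction n with
  | zero => exact ⟨f1, f2, h⟩
  | succ n ih =>
    obtain ⟨g1, g2, hg⟩ := ih
    exact ⟨_, _, P_fc hg r⟩

lemma Pn_eq {f : ℝ → ℝ} {C : ℝ} (hf : Continuous f) (hb : ∀ x, |f x| ≤ C) {r : ℝ} (hr : 0 ≤ r)
    (n : ℕ) (x : ℝ) : Pn r n f x = P (√n * r) f x := by
  induction n generalizing x with
  | zero => simp [Pn, P]
  | succ n ih =>
    have h1 : Pn r (n + 1) f x = P r (P (√n * r) f) x := by
      show P r (Pn r n f) x = _
      have : Pn r n f = P (√n * r) f := funext ih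
      rw [this]
    rw [h1, gauss2 hf hb]
    congr 1
    rw [Real.sqrt_eq_iff_mul_self_eq (by positivity) (by positivity)]
    have e : √((n + 1 : ℕ) : ℝ) * r * (√((n + 1 : ℕ) : ℝ) * r)
        = (√((n + 1 : ℕ) : ℝ)) ^ 2 * r ^ 2 := by ring
    rw [e, mul_pow, Real.sq_sqrt (by positivity), Real.sq_sqrt (by positivity)]
    push_cast
    ring

/-- the one dimensional inequality for smooth functions -/
theorem one_dim_smooth {S M l m : ℝ} (hl : 0 < l) (hm : 0 < m) (hlm : l + m = 1)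
    {f f1 f2 g g1 g2 h h1 h2 : ℝ → ℝ} (hf : Fc S M f f1 f2) (hg : Fc S M g g1 g2)
    (hh : Fc S M h h1 h2)
    (hyp : ∀ x y, l * Psi (f x) + m * Psi (g y) ≤ Psi (h (l * x + m * y))) :
    l * Psi (∫ x, f x ∂ga) + m * Psi (∫ x, g x ∂ga) ≤ Psi (∫ x, h x ∂ga) := by
  set K := KK S M with hK
  have hKp : 0 < K := KK_pos hf
  have hS := hf.S0
  set CC := 4 * K + 32 * S ^ 2 * K ^ 3 + 2 * KE S M with hCC
  have hCC0 : 0 ≤ CC := by
    have hM := hf.M0
    have hc := phi_pos S
    have hC := C3_nonneg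
    have : 0 ≤ KE S M := by unfold KE; positivity
    positivity
  -- iteration
  have it : ∀ (r : ℝ), 0 < r → r ≤ 1 → 2 * r ^ 2 * K ^ 2 ≤ 1 → ∀ n : ℕ, ∀ x y,
      l * Psi (Pn r n f x) + m * Psi (Pn r n g y) ≤ Psi (Pn r n h (l * x + m * y))
        + n * (CC * r ^ 3) := by
    intro r hr hr1 hrK n
    induction n with
    | zero => intro x y; simpa [Pn] using hyp x y
    | succ n ih =>
      intro x y
      obtain ⟨a1, a2, ha⟩ := Pn_fc hf r n
      obtain ⟨b1, b2, hb⟩ := Pn_fc hg r n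
      obtain ⟨c1, c2, hc⟩ := Pn_fc hh r n
      have := key (S := S) (K := K) (K' := KE S M) (D := n * (CC * r ^ 3)) hS hKp hl hm hlm
        (by positivity) hr hr1 hrK (comp_adm ha) (comp_adm hb) (comp_adm hc)
        (Ft := fun x => Psi (P r (Pn r n f) x)) (Gt := fun x => Psi (P r (Pn r n g) x))
        (Ht := fun x => Psi (P r (Pn r n h) x))
        (fun x => step_exp ha hr hr1 x) (fun x => step_exp hb hr hr1 x)
        (fun x => step_exp hc hr hr1 x) ih x y
      show l * Psi (P r (Pn r n f) x) + m * Psi (P r (Pn r n g) y) ≤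
        Psi (P r (Pn r n h) (l * x + m * y)) + ((n + 1 : ℕ) : ℝ) * (CC * r ^ 3)
      push_cast
      rw [← hCC] at this
      linarith
  -- choose r = 1/√n
  have ev : ∀ᶠ n : ℕ in atTop, l * Psi (∫ x, f x ∂ga) + m * Psi (∫ x, g x ∂ga)
      ≤ Psi (∫ x, h x ∂ga) + CC * (√(n : ℝ))⁻¹ := by
    filter_upwards [eventually_ge_atTop (max 1 ⌈2 * K ^ 2⌉₊)] with n hn
    have hn1 : 1 ≤ n := le_trans (le_max_left _ _) hn
    have hn2 : 2 * K ^ 2 ≤ n := by
      have h3 : ⌈2 * K ^ 2⌉₊ ≤ n := le_trans (le_max_right _ _) hn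
      exact le_trans (Nat.le_ceil _) (by exact_mod_cast h3)
    have hnp : (0 : ℝ) < n := by exact_mod_cast hn1
    have hsq : 0 < √(n : ℝ) := Real.sqrt_pos.2 hnp
    have hs1 : 1 ≤ √(n : ℝ) := by
      rw [show (1 : ℝ) = √1 by simp]
      exact Real.sqrt_le_sqrt (by exact_mod_cast hn1)
    set r := (√(n : ℝ))⁻¹ with hr
    have hr0 : 0 < r := inv_pos.2 hsq
    have hr1 : r ≤ 1 := inv_le_one_of_one_le₀ hs1
    have hr2 : r ^ 2 = (n : ℝ)⁻¹ := by
      rw [hr, inv_pow, Real.sq_sqrt hnp.le]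
    have hrK : 2 * r ^ 2 * K ^ 2 ≤ 1 := by
      rw [hr2]
      have : 2 * (n : ℝ)⁻¹ * K ^ 2 = (2 * K ^ 2) * (n : ℝ)⁻¹ := by ring
      rw [this, mul_inv_le_iff₀ hnp]
      linarith
    have key0 := it r hr0 hr1 hrK n 0 0
    have e0 : l * 0 + m * 0 = (0 : ℝ) := by ring
    rw [e0] at key0
    have e1 : ∀ {u u1 u2 : ℝ → ℝ}, Fc S M u u1 u2 → Pn r n u 0 = ∫ x, u x ∂ga := by
      intro u u1 u2 hu
      rw [Pn_eq hu.cont hu.abs_le_one hr0.le]
      unfold P
      have : √(n : ℝ) * r = 1 := by rw [hr]; exact mul_inv_cancel₀ hsq.ne'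
      rw [this]
      simp
    rw [e1 hf, e1 hg, e1 hh] at key0
    have e2 : (n : ℝ) * (CC * r ^ 3) = CC * r := by
      have : (n : ℝ) * r ^ 2 = 1 := by rw [hr2]; exact mul_inv_cancel₀ hnp.ne'
      calc (n : ℝ) * (CC * r ^ 3) = CC * r * ((n : ℝ) * r ^ 2) := by ring
        _ = CC * r := by rw [this, mul_one]
    rw [e2] at key0
    exact key0
  have lim : Tendsto (fun n : ℕ => Psi (∫ x, h x ∂ga) + CC * (√(n : ℝ))⁻¹) atTop
      (𝓝 (Psi (∫ x, h x ∂ga) + CC * 0)) := by
    apply Tendsto.const_add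
    apply Tendsto.const_mul
    exact tendsto_inv_atTop_zero.comp (Real.tendsto_sqrt_atTop.comp tendsto_natCast_atTop_atTop)
  have := ge_of_tendsto lim ev
  simpa using this

end Ehr
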