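import Pool.Agent.W_7d29a1_ehr.Iter

/-!
# Mollification: the one dimensional functional inequality for continuous functions
-/

open MeasureTheory ProbabilityTheory Set Filter Topology

namespace Ehr

/-- averaging over the interval of radius `d` -/
noncomputable def Av (d : ℝ) (F : ℝ → ℝ) (x : ℝ) : ℝ := (2 * d)⁻¹ * ∫ t in (x - d)..(x + d), F t

lemma Av_eq {d : ℝ} (hd : 0 < d) (F : ℝ → ℝ) (x : ℝ) :
    Av d F x = 2⁻¹ * ∫ t in (-1 : ℝ)..1, F (x + d * t) := by
  rw [intervalIntegral.integral_comp_add_mul F hd.ne' x]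
  unfold Av
  rw [smul_eq_mul, ← mul_assoc, mul_inv]
  congr 2 <;> ring

lemma Av_cont_aux {F : ℝ → ℝ} (hF : Continuous F) (x d : ℝ) :
    Continuous fun t => F (x + d * t) := by fun_prop

lemma Av_abs {d S : ℝ} (hd : 0 < d) {F : ℝ → ℝ} (hb : ∀ x, |F x| ≤ S) (x : ℝ) : |Av d F x| ≤ S := by
  rw [Av_eq hd, abs_mul, abs_of_pos (by norm_num : (0 : ℝ) < 2⁻¹)]
  have h := intervalIntegral.norm_integral_le_of_norm_le_const (a := (-1 : ℝ)) (b := 1)
    (f := fun t => F (x + d * t)) (C := S) (fun t _ => by rw [Real.norm_eq_abs]; exact hb _)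
  rw [Real.norm_eq_abs] at h
  have e : |(1 : ℝ) - -1| = 2 := by norm_num
  rw [e] at h
  linarith

lemma Av_deriv {F : ℝ → ℝ} (hF : Continuous F) (d x : ℝ) :
    HasDerivAt (Av d F) ((2 * d)⁻¹ * (F (x + d) - F (x - d))) x := by
  have hG : ∀ y, HasDerivAt (fun y => ∫ t in (0 : ℝ)..y, F t) (F y) y := fun y =>
    intervalIntegral.integral_hasDerivAt_right (hF.intervalIntegrable _ _)
      (hF.stronglyMeasurableAtFilter _ _) hF.continuousAt
  have e : Av d F = fun x => (2 * d)⁻¹ * ((∫ t in (0 : ℝ)..(x + d), F t) - ∫ t in (0 : ℝ)..(x - d), F t) := by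
    funext x
    unfold Av
    rw [intervalIntegral.integral_interval_sub_left (hF.intervalIntegrable _ _)
      (hF.intervalIntegrable _ _)]
  rw [e]
  exact ((hG (x + d)).comp_add_const x d |>.fun_sub ((hG (x - d)).comp_sub_const x d)).const_mul _

lemma Av_cont {F : ℝ → ℝ} (hF : Continuous F) (d : ℝ) : Continuous (Av d F) :=
  continuous_iff_continuousAt.2 fun x => (Av_deriv hF d x).continuousAt

lemma Av_ineq {F G H : ℝ → ℝ} (hF : Continuous F) (hG : Continuous G) (hH : Continuous H)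
    {l m d : ℝ} (hlm : l + m = 1) (hd : 0 < d)
    (hyp : ∀ x y, l * F x + m * G y ≤ H (l * x + m * y)) (x y : ℝ) :
    l * Av d F x + m * Av d G y ≤ Av d H (l * x + m * y) := by
  rw [Av_eq hd, Av_eq hd, Av_eq hd]
  have e : l * (2⁻¹ * ∫ t in (-1 : ℝ)..1, F (x + d * t)) + m * (2⁻¹ * ∫ t in (-1 : ℝ)..1, G (y + d * t))
      = 2⁻¹ * ∫ t in (-1 : ℝ)..1, (l * F (x + d * t) + m * G (y + d * t)) := by
    rw [intervalIntegral.integral_add, intervalIntegral.integral_const_mul,
      intervalIntegral.integral_const_mul]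
    · ring
    · exact (Continuous.intervalIntegrable (by fun_prop) _ _)
    · exact (Continuous.intervalIntegrable (by fun_prop) _ _)
  rw [e]
  apply mul_le_mul_of_nonneg_left _ (by norm_num)
  apply intervalIntegral.integral_mono_on (by norm_num)
    (Continuous.intervalIntegrable (by fun_prop) _ _)
    (Continuous.intervalIntegrable (by fun_prop) _ _)
  intro t _
  have := hyp (x + d * t) (y + d * t)
  have e2 : l * (x + d * t) + m * (y + d * t) = l * x + m * y + d * t := by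
    linear_combination (d * t) * hlm
  rwa [e2] at this

lemma Av_close {F : ℝ → ℝ} (hF : Continuous F) {x c r e d : ℝ} (hd : 0 < d)
    (h : ∀ y, |y - x| ≤ r → |F y - c| ≤ e) (y : ℝ) (hy : |y - x| ≤ r - d) : |Av d F y - c| ≤ e := by
  rw [Av_eq hd]
  have e1 : 2⁻¹ * (∫ t in (-1 : ℝ)..1, F (y + d * t)) - c
      = 2⁻¹ * ∫ t in (-1 : ℝ)..1, (F (y + d * t) - c) := by
    rw [intervalIntegral.integral_sub (Continuous.intervalIntegrable (by fun_prop) _ _)
      (Continuous.intervalIntegrable (by fun_prop) _ _)]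
    simp
    ring
  rw [e1, abs_mul, abs_of_pos (by norm_num : (0 : ℝ) < 2⁻¹)]
  have h := intervalIntegral.norm_integral_le_of_norm_le_const (a := (-1 : ℝ)) (b := 1)
    (f := fun t => F (y + d * t) - c) (C := e) (fun t ht => by
      rw [Real.norm_eq_abs]
      apply h
      rw [uIoc_of_le (by norm_num)] at ht
      have h1 : |d * t| ≤ d := by
        rw [abs_mul, abs_of_pos hd]
        have : |t| ≤ 1 := abs_le.2 ⟨ht.1.le, ht.2⟩
        nlinarith
      calc |y + d * t - x| = |(y - x) + d * t| := by ring_nf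
        _ ≤ |y - x| + |d * t| := abs_add_le _ _
        _ ≤ r := by linarith)
  rw [Real.norm_eq_abs] at h
  have e2 : |(1 : ℝ) - -1| = 2 := by norm_num
  rw [e2] at h
  linarith

/-- three averages -/
noncomputable def A3 (d : ℝ) (F : ℝ → ℝ) : ℝ → ℝ := Av d (Av d (Av d F))

lemma A3_cont {F : ℝ → ℝ} (hF : Continuous F) (d : ℝ) : Continuous (A3 d F) :=
  Av_cont (Av_cont (Av_cont hF d) d) d

lemma A3_abs {d S : ℝ} (hd : 0 < d) {F : ℝ → ℝ} (hb : ∀ x, |F x| ≤ S) (x : ℝ) : |A3 d F x| ≤ S :=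
  Av_abs hd (Av_abs hd (Av_abs hd hb)) x

lemma A3_ineq {F G H : ℝ → ℝ} (hF : Continuous F) (hG : Continuous G) (hH : Continuous H)
    {l m d : ℝ} (hlm : l + m = 1) (hd : 0 < d)
    (hyp : ∀ x y, l * F x + m * G y ≤ H (l * x + m * y)) (x y : ℝ) :
    l * A3 d F x + m * A3 d G y ≤ A3 d H (l * x + m * y) := by
  have c1 := Av_cont hF d
  have c2 := Av_cont hG d
  have c3 := Av_cont hH d
  exact Av_ineq (Av_cont c1 d) (Av_cont c2 d) (Av_cont c3 d) hlm hd
    (Av_ineq c1 c2 c3 hlm hd (Av_ineq hF hG hH hlm hd hyp)) x y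

lemma A3_tendsto {F : ℝ → ℝ} (hF : Continuous F) (x : ℝ) :
    Tendsto (fun n : ℕ => A3 (1 / ((n : ℝ) + 1)) F x) atTop (𝓝 (F x)) := by
  rw [Metric.tendsto_atTop]
  intro e he
  obtain ⟨r, hr, hr2⟩ := Metric.continuousAt_iff.1 (hF.continuousAt (x := x)) (e / 2) (by linarith)
  obtain ⟨N, hN⟩ := exists_nat_one_div_lt (show 0 < r / 4 by linarith)
  refine ⟨N, fun n hn => ?_⟩
  set d : ℝ := 1 / ((n : ℝ) + 1) with hd
  have hd0 : 0 < d := by positivity
  have hd1 : d < r / 4 := by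
    refine lt_of_le_of_lt ?_ hN
    apply one_div_le_one_div_of_le (by positivity)
    have : (N : ℝ) ≤ n := by exact_mod_cast hn
    linarith
  have h0 : ∀ y, |y - x| ≤ 3 * d → |F y - F x| ≤ e / 2 := by
    intro y hy
    have := hr2 (show dist y x < r by rw [Real.dist_eq]; linarith)
    rw [Real.dist_eq] at this
    exact this.le
  have h1 := Av_close hF hd0 h0
  have h2 := Av_close (Av_cont hF d) hd0 h1
  have h3 := Av_close (Av_cont (Av_cont hF d) d) hd0 h2 x (by simp; linarith)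
  rw [Real.dist_eq]
  exact lt_of_le_of_lt h3 (by linarith)

lemma Av_lip {d S : ℝ} (hd : 0 < d) {F : ℝ → ℝ} (hF : Continuous F) (hb : ∀ x, |F x| ≤ S) (x y : ℝ) :
    |Av d F x - Av d F y| ≤ S / d * |x - y| := by
  have h := Convex.norm_image_sub_le_of_norm_hasDerivWithin_le (f := Av d F)
    (f' := fun z => (2 * d)⁻¹ * (F (z + d) - F (z - d)))
    (C := S / d) (s := univ) (x := y) (y := x) (fun z _ => (Av_deriv hF d z).hasDerivWithinAt)
    (fun z _ => by
      rw [Real.norm_eq_abs, abs_mul, abs_of_pos (by positivity : 0 < (2 * d)⁻¹)]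
      have h1 : |F (z + d) - F (z - d)| ≤ 2 * S := by
        have := abs_sub (F (z + d)) (F (z - d))
        linarith [hb (z + d), hb (z - d)]
      calc (2 * d)⁻¹ * |F (z + d) - F (z - d)| ≤ (2 * d)⁻¹ * (2 * S) := by gcongr
        _ = S / d := by field_simp)
    convex_univ (mem_univ _) (mem_univ _)
  simpa [Real.norm_eq_abs] using h

/-- `Phi ∘ F` is in the smooth class when `F` is bounded with bounded derivatives -/
lemma Phi_comp_fc {S A B C : ℝ} {F F1 F2 : ℝ → ℝ} (hb : ∀ x, |F x| ≤ S)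
    (d1 : ∀ x, HasDerivAt F (F1 x) x) (d2 : ∀ x, HasDerivAt F1 (F2 x) x)
    (b1 : ∀ x, |F1 x| ≤ A) (b2 : ∀ x, |F2 x| ≤ B) (l2 : ∀ x y, |F2 x - F2 y| ≤ C * |x - y|) :
    ∃ M, ∃ f1 f2 : ℝ → ℝ, Fc S M (fun x => Phi (F x)) f1 f2 := by
  have hS : 0 ≤ S := le_trans (abs_nonneg _) (hb 0)
  have hA : 0 ≤ A := le_trans (abs_nonneg _) (b1 0)
  have hB : 0 ≤ B := le_trans (abs_nonneg _) (b2 0)
  have lF : ∀ x y, |F x - F y| ≤ A * |x - y| := fun x y => by
    have h := Convex.norm_image_sub_le_of_norm_hasDerivWithin_le (f := F) (f' := F1) (C := A)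
      (s := univ) (x := y) (y := x) (fun z _ => (d1 z).hasDerivWithinAt)
      (fun z _ => by rw [Real.norm_eq_abs]; exact b1 z) convex_univ (mem_univ _) (mem_univ _)
    simpa [Real.norm_eq_abs] using h
  have lF1 : ∀ x y, |F1 x - F1 y| ≤ B * |x - y| := fun x y => by
    have h := Convex.norm_image_sub_le_of_norm_hasDerivWithin_le (f := F1) (f' := F2) (C := B)
      (s := univ) (x := y) (y := x) (fun z _ => (d2 z).hasDerivWithinAt)
      (fun z _ => by rw [Real.norm_eq_abs]; exact b2 z) convex_univ (mem_univ _) (mem_univ _)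
    simpa [Real.norm_eq_abs] using h
  have bp : ∀ x, |phi (F x)| ≤ 1 := fun x => by
    rw [abs_of_pos (phi_pos _)]; exact phi_le_one _
  have lp : ∀ x y, |phi (F x) - phi (F y)| ≤ S * A * |x - y| := fun x y => by
    have h1 := phi_lipS (hb x) (hb y)
    calc _ ≤ _ := h1
      _ ≤ S * (A * |x - y|) := by gcongr; exact lF x y
      _ = _ := by ring
  -- second derivative: phi(F) * (F2 - F * F1^2)
  have l11 := mul_lip b1 b1 lF1 lF1
  have b11 : ∀ x, |F1 x * F1 x| ≤ A * A := fun x => by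
    rw [abs_mul]; exact mul_le_mul (b1 x) (b1 x) (abs_nonneg _) hA
  have l12 := mul_lip hb b11 lF l11
  have b12 : ∀ x, |F x * (F1 x * F1 x)| ≤ S * (A * A) := fun x => by
    rw [abs_mul]; exact mul_le_mul (hb x) (b11 x) (abs_nonneg _) hS
  have b13 : ∀ x, |F2 x - F x * (F1 x * F1 x)| ≤ B + S * (A * A) := fun x =>
    le_trans (abs_sub _ _) (add_le_add (b2 x) (b12 x))
  have l13 : ∀ x y, |(F2 x - F x * (F1 x * F1 x)) - (F2 y - F y * (F1 y * F1 y))|
      ≤ (C + (S * (A * B + B * A) + A * (A * A))) * |x - y| := fun x y => by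
    have e : (F2 x - F x * (F1 x * F1 x)) - (F2 y - F y * (F1 y * F1 y))
      = (F2 x - F2 y) - (F x * (F1 x * F1 x) - F y * (F1 y * F1 y)) := by ring
    rw [e]
    have := abs_sub (F2 x - F2 y) (F x * (F1 x * F1 x) - F y * (F1 y * F1 y))
    linarith [l2 x y, l12 x y]
  have l14 := mul_lip bp b13 lp l13
  have b14 : ∀ x, |phi (F x) * (F2 x - F x * (F1 x * F1 x))| ≤ 1 * (B + S * (A * A)) := fun x => by
    rw [abs_mul]; exact mul_le_mul (bp x) (b13 x) (abs_nonneg _) zero_le_one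
  have b15 : ∀ x, |phi (F x) * F1 x| ≤ 1 * A := fun x => by
    rw [abs_mul]; exact mul_le_mul (bp x) (b1 x) (abs_nonneg _) zero_le_one
  set c3 := 1 * (C + (S * (A * B + B * A) + A * (A * A))) + S * A * (B + S * (A * A)) with hc3
  refine ⟨max A (max (B + S * (A * A)) c3), fun x => phi (F x) * F1 x,
    fun x => phi (F x) * (F2 x - F x * (F1 x * F1 x)), ?_, ?_, ?_, ?_, ?_, ?_, ?_⟩
  · intro x
    exact Phi_strictMono.monotone (abs_le.1 (hb x)).1
  · intro x
    exact Phi_strictMono.monotone (abs_le.1 (hb x)).2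
  · intro x
    exact (hasDerivAt_Phi (F x)).comp x (d1 x)
  · intro x
    have h1 : HasDerivAt (fun x => phi (F x)) (-F x * phi (F x) * F1 x) x :=
      (hasDerivAt_phi (F x)).comp x (d1 x)
    exact (h1.mul (d2 x)).congr_deriv (by ring)
  · intro x
    exact le_trans (b15 x) (by rw [one_mul]; exact le_max_left _ _)
  · intro x
    exact le_trans (b14 x) (by rw [one_mul]; exact le_trans (le_max_left _ _) (le_max_right _ _))
  · intro x y
    refine le_trans (l14 x y) ?_
    apply mul_le_mul_of_nonneg_right _ (abs_nonneg _)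
    exact le_trans (le_max_right _ _) (le_max_right _ _)

lemma A3_fc {d S : ℝ} (hd : 0 < d) {F : ℝ → ℝ} (hF : Continuous F) (hb : ∀ x, |F x| ≤ S) :
    ∃ M, ∃ f1 f2 : ℝ → ℝ, Fc S M (fun x => Phi (A3 d F x)) f1 f2 := by
  have c1 := Av_cont hF d
  have c2 := Av_cont c1 d
  have hS : 0 ≤ S := le_trans (abs_nonneg _) (hb 0)
  have p2 : 0 < (2 * d)⁻¹ := by positivity
  apply Phi_comp_fc (S := S) (A := S / d) (B := S / d ^ 2) (C := S / d ^ 3)
    (F1 := fun x => (2 * d)⁻¹ * (Av d (Av d F) (x + d) - Av d (Av d F) (x - d)))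
    (F2 := fun x => (2 * d)⁻¹ * ((2 * d)⁻¹ * (Av d F (x + d + d) - Av d F (x + d - d))
      - (2 * d)⁻¹ * (Av d F (x - d + d) - Av d F (x - d - d))))
  · exact A3_abs hd hb
  · intro x
    exact Av_deriv c2 d x
  · intro x
    have h1 := (Av_deriv c1 d (x + d)).comp_add_const x d
    have h2 := (Av_deriv c1 d (x - d)).comp_sub_const x d
    exact (h1.fun_sub h2).const_mul _
  · intro x
    rw [abs_mul, abs_of_pos p2]
    have h1 := abs_sub (Av d (Av d F) (x + d)) (Av d (Av d F) (x - d))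
    have h2 := Av_abs hd (Av_abs hd hb) (x + d)
    have h3 := Av_abs hd (Av_abs hd hb) (x - d)
    calc _ ≤ (2 * d)⁻¹ * (2 * S) := by gcongr; linarith
      _ = S / d := by field_simp
  · intro x
    rw [abs_mul, abs_of_pos p2]
    have h1 := abs_sub ((2 * d)⁻¹ * (Av d F (x + d + d) - Av d F (x + d - d)))
      ((2 * d)⁻¹ * (Av d F (x - d + d) - Av d F (x - d - d)))
    have hq : ∀ a b, |(2 * d)⁻¹ * (Av d F a - Av d F b)| ≤ S / d := by
      intro a b
      rw [abs_mul, abs_of_pos p2]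
      have h1 := abs_sub (Av d F a) (Av d F b)
      have h2 := Av_abs hd hb a
      have h3 := Av_abs hd hb b
      calc _ ≤ (2 * d)⁻¹ * (2 * S) := by gcongr; linarith
        _ = S / d := by field_simp
    calc _ ≤ (2 * d)⁻¹ * (2 * (S / d)) := by
          gcongr
          linarith [hq (x + d + d) (x + d - d), hq (x - d + d) (x - d - d)]
      _ = S / d ^ 2 := by field_simp
  · intro x y
    have hL := Av_lip hd hF hb
    have e : (2 * d)⁻¹ * ((2 * d)⁻¹ * (Av d F (x + d + d) - Av d F (x + d - d))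
      - (2 * d)⁻¹ * (Av d F (x - d + d) - Av d F (x - d - d))) -
      (2 * d)⁻¹ * ((2 * d)⁻¹ * (Av d F (y + d + d) - Av d F (y + d - d))
      - (2 * d)⁻¹ * (Av d F (y - d + d) - Av d F (y - d - d)))
      = ((2 * d)⁻¹ * (2 * d)⁻¹) * ((Av d F (x + d + d) - Av d F (y + d + d))
        - (Av d F (x + d - d) - Av d F (y + d - d)) - (Av d F (x - d + d) - Av d F (y - d + d))
        + (Av d F (x - d - d) - Av d F (y - d - d))) := by ring
    show |(2 * d)⁻¹ * ((2 * d)⁻¹ * (Av d F (x + d + d) - Av d F (x + d - d))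
      - (2 * d)⁻¹ * (Av d F (x - d + d) - Av d F (x - d - d))) -
      (2 * d)⁻¹ * ((2 * d)⁻¹ * (Av d F (y + d + d) - Av d F (y + d - d))
      - (2 * d)⁻¹ * (Av d F (y - d + d) - Av d F (y - d - d)))| ≤ _
    rw [e, abs_mul, abs_of_pos (mul_pos p2 p2)]
    have q1 := hL (x + d + d) (y + d + d)
    have q2 := hL (x + d - d) (y + d - d)
    have q3 := hL (x - d + d) (y - d + d)
    have q4 := hL (x - d - d) (y - d - d)
    rw [show x + d + d - (y + d + d) = x - y by ring] at q1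
    rw [show x + d - d - (y + d - d) = x - y by ring] at q2
    rw [show x - d + d - (y - d + d) = x - y by ring] at q3
    rw [show x - d - d - (y - d - d) = x - y by ring] at q4
    have h4 : |(Av d F (x + d + d) - Av d F (y + d + d))
        - (Av d F (x + d - d) - Av d F (y + d - d)) - (Av d F (x - d + d) - Av d F (y - d + d))
        + (Av d F (x - d - d) - Av d F (y - d - d))| ≤ 4 * (S / d * |x - y|) := by
      rw [abs_le] at q1 q2 q3 q4 ⊢
      constructor <;> linarith [q1.1, q1.2, q2.1, q2.2, q3.1, q3.2, q4.1, q4.2]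
    calc _ ≤ ((2 * d)⁻¹ * (2 * d)⁻¹) * (4 * (S / d * |x - y|)) := by gcongr
      _ = S / d ^ 3 * |x - y| := by field_simp; norm_num

lemma Fc.mono {S M M' : ℝ} {f f1 f2 : ℝ → ℝ} (h : Fc S M f f1 f2) (hM : M ≤ M') : Fc S M' f f1 f2 :=
  ⟨h.lo, h.hi, h.d1, h.d2, fun x => (h.b1 x).trans hM, fun x => (h.b2 x).trans hM,
    fun x y => (h.l2 x y).trans (mul_le_mul_of_nonneg_right hM (abs_nonneg _))⟩

lemma int_Phi_mem {α : Type*} [MeasurableSpace α] (μ : Measure α) [IsProbabilityMeasure μ]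
    {F : α → ℝ} (hF : AEStronglyMeasurable (fun x => Phi (F x)) μ) {S : ℝ} (hb : ∀ x, |F x| ≤ S) :
    Phi (-S) ≤ ∫ x, Phi (F x) ∂μ ∧ ∫ x, Phi (F x) ∂μ ≤ Phi S := by
  have hi : Integrable (fun x => Phi (F x)) μ := by
    apply Integrable.of_bound (C := 1) hF
    exact ae_of_all _ fun y => by
      rw [Real.norm_eq_abs, abs_of_pos (Phi_pos _)]; exact Phi_le_one _
  constructor
  · have : ∫ _x, Phi (-S) ∂μ ≤ ∫ x, Phi (F x) ∂μ :=
      integral_mono (integrable_const _) hi fun x => Phi_strictMono.monotone (abs_le.1 (hb x)).1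
    simpa using this
  · have : ∫ x, Phi (F x) ∂μ ≤ ∫ _x, Phi S ∂μ :=
      integral_mono hi (integrable_const _) fun x => Phi_strictMono.monotone (abs_le.1 (hb x)).2
    simpa using this

/-- the one dimensional functional inequality -/
theorem one_dim {S l m : ℝ} (hl : 0 < l) (hm : 0 < m) (hlm : l + m = 1)
    {F G H : ℝ → ℝ} (hF : Continuous F) (hG : Continuous G) (hH : Continuous H)
    (bF : ∀ x, |F x| ≤ S) (bG : ∀ x, |G x| ≤ S) (bH : ∀ x, |H x| ≤ S)
    (hyp : ∀ x y, l * F x + m * G y ≤ H (l * x + m * y)) :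
    l * Psi (∫ x, Phi (F x) ∂ga) + m * Psi (∫ x, Phi (G x) ∂ga) ≤ Psi (∫ x, Phi (H x) ∂ga) := by
  have lim : ∀ F : ℝ → ℝ, Continuous F → (∀ x, |F x| ≤ S) →
      Tendsto (fun n : ℕ => Psi (∫ x, Phi (A3 (1 / ((n : ℝ) + 1)) F x) ∂ga)) atTop
        (𝓝 (Psi (∫ x, Phi (F x) ∂ga))) := by
    intro F hF bF
    have h1 : Tendsto (fun n : ℕ => ∫ x, Phi (A3 (1 / ((n : ℝ) + 1)) F x) ∂ga) atTop
        (𝓝 (∫ x, Phi (F x) ∂ga)) := by
      apply tendsto_integral_of_dominated_convergence (fun _ => (1 : ℝ))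
      · intro n
        exact (Phi_cont.comp (A3_cont hF _)).aestronglyMeasurable
      · exact integrable_const _
      · intro n
        exact ae_of_all _ fun y => by
          rw [Real.norm_eq_abs, abs_of_pos (Phi_pos _)]; exact Phi_le_one _
      · exact ae_of_all _ fun y => (Phi_cont.tendsto _).comp (A3_tendsto hF y)
    have h2 := int_Phi_mem ga (Phi_cont.comp hF).aestronglyMeasurable bF
    have h3 : ContinuousAt Psi (∫ x, Phi (F x) ∂ga) :=
      Psi_contAt (lt_of_lt_of_le (Phi_pos _) h2.1) (lt_of_le_of_lt h2.2 (Phi_lt_one _))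
    exact h3.tendsto.comp h1
  have key : ∀ n : ℕ, l * Psi (∫ x, Phi (A3 (1 / ((n : ℝ) + 1)) F x) ∂ga)
      + m * Psi (∫ x, Phi (A3 (1 / ((n : ℝ) + 1)) G x) ∂ga)
      ≤ Psi (∫ x, Phi (A3 (1 / ((n : ℝ) + 1)) H x) ∂ga) := by
    intro n
    have hd : (0 : ℝ) < 1 / ((n : ℝ) + 1) := by positivity
    obtain ⟨M1, f1, f2, h1⟩ := A3_fc hd hF bF
    obtain ⟨M2, g1, g2, h2⟩ := A3_fc hd hG bG
    obtain ⟨M3, e1, e2, h3⟩ := A3_fc hd hH bH
    have h1' := h1.mono (show M1 ≤ max M1 (max M2 M3) from le_max_left _ _)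
    have h2' := h2.mono (show M2 ≤ max M1 (max M2 M3) from le_trans (le_max_left _ _) (le_max_right _ _))
    have h3' := h3.mono (show M3 ≤ max M1 (max M2 M3) from le_trans (le_max_right _ _) (le_max_right _ _))
    apply one_dim_smooth hl hm hlm h1' h2' h3'
    intro x y
    rw [Psi_Phi, Psi_Phi, Psi_Phi]
    exact A3_ineq hF hG hH hlm hd hyp x y
  exact le_of_tendsto_of_tendsto' (((lim F hF bF).const_mul l).add ((lim G hG bG).const_mul m))
    (lim H hH bH) key

end Ehr
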