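import Pool.Agent.W_7d29a1_ehr.Mollify

/-!
# The functional inequality in finite dimension
-/

open MeasureTheory ProbabilityTheory Set Filter Topology

namespace Ehr

/-- standard Gaussian product measure -/
noncomputable abbrev gpi (ι : Type*) [Fintype ι] : Measure (ι → ℝ) := Measure.pi (fun _ : ι => ga)

/-- partially integrated function -/
noncomputable def bar {n : ℕ} (F : (Fin (n + 1) → ℝ) → ℝ) (s : ℝ) : ℝ :=
  Psi (∫ x, Phi (F (Fin.cons s x)) ∂(gpi (Fin n)))

lemma cons_cont {n : ℕ} : Continuous (fun p : ℝ × (Fin n → ℝ) => (Fin.cons p.1 p.2 : Fin (n + 1) → ℝ)) := by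
  apply continuous_pi
  intro i
  refine Fin.cases ?_ (fun j => ?_) i
  · simpa using continuous_fst
  · show Continuous fun p : ℝ × (Fin n → ℝ) => p.2 j
    fun_prop

lemma bar_mem {n : ℕ} {F : (Fin (n + 1) → ℝ) → ℝ} (hF : Continuous F) {S : ℝ}
    (hb : ∀ x, |F x| ≤ S) (s : ℝ) :
    Phi (-S) ≤ ∫ x, Phi (F (Fin.cons s x)) ∂(gpi (Fin n)) ∧
      ∫ x, Phi (F (Fin.cons s x)) ∂(gpi (Fin n)) ≤ Phi S := by
  have hc : Continuous (fun x : Fin n → ℝ => Phi (F (Fin.cons s x))) :=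
    Phi_cont.comp (hF.comp (cons_cont.comp (by fun_prop : Continuous fun x : Fin n → ℝ => (s, x))))
  exact int_Phi_mem (gpi (Fin n)) (F := fun x => F (Fin.cons s x)) hc.aestronglyMeasurable (fun x => hb _)

lemma bar_abs {n : ℕ} {F : (Fin (n + 1) → ℝ) → ℝ} (hF : Continuous F) {S : ℝ}
    (hb : ∀ x, |F x| ≤ S) (s : ℝ) : |bar F s| ≤ S :=
  abs_Psi (bar_mem hF hb s).1 (bar_mem hF hb s).2

lemma bar_cont {n : ℕ} {F : (Fin (n + 1) → ℝ) → ℝ} (hF : Continuous F) {S : ℝ}
    (hb : ∀ x, |F x| ≤ S) : Continuous (bar F) := by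
  rw [continuous_iff_continuousAt]
  intro s
  have h1 : ContinuousAt Psi (∫ x, Phi (F (Fin.cons s x)) ∂(gpi (Fin n))) :=
    Psi_contAt (lt_of_lt_of_le (Phi_pos _) (bar_mem hF hb s).1)
      (lt_of_le_of_lt (bar_mem hF hb s).2 (Phi_lt_one _))
  have h2 : Continuous fun s => ∫ x, Phi (F (Fin.cons s x)) ∂(gpi (Fin n)) := by
    apply continuous_of_dominated (bound := fun _ => (1 : ℝ))
    · intro s
      exact (Phi_cont.comp (hF.comp (cons_cont.comp
        (by fun_prop : Continuous fun x : Fin n → ℝ => (s, x))))).aestronglyMeasurable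
    · intro s
      exact ae_of_all _ fun y => by
        rw [Real.norm_eq_abs, abs_of_pos (Phi_pos _)]; exact Phi_le_one _
    · exact integrable_const _
    · exact ae_of_all _ fun y => Phi_cont.comp (hF.comp (cons_cont.comp
        (by fun_prop : Continuous fun s : ℝ => (s, y))))
  exact ContinuousAt.comp (g := Psi) h1 h2.continuousAt

lemma int_succ {n : ℕ} {F : (Fin (n + 1) → ℝ) → ℝ} (hF : Continuous F) {S : ℝ}
    (hb : ∀ x, |F x| ≤ S) :
    ∫ x, Phi (F x) ∂(gpi (Fin (n + 1))) = ∫ s, Phi (bar F s) ∂ga := by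
  have h0 := (measurePreserving_piFinSuccAbove (fun _ : Fin (n + 1) => ga) 0).symm
  rw [← h0.integral_comp']
  have hint : Integrable (fun p : ℝ × (Fin n → ℝ) => Phi (F (Fin.cons p.1 p.2)))
      (ga.prod (gpi (Fin n))) := by
    apply Integrable.of_bound (C := 1)
    · exact (Phi_cont.comp (hF.comp cons_cont)).aestronglyMeasurable
    · exact ae_of_all _ fun y => by
        rw [Real.norm_eq_abs, abs_of_pos (Phi_pos _)]; exact Phi_le_one _
  have e1 : ∫ p : ℝ × (Fin n → ℝ), Phi (F (Fin.cons p.1 p.2)) ∂(ga.prod (gpi (Fin n)))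
      = ∫ s, ∫ x, Phi (F (Fin.cons s x)) ∂(gpi (Fin n)) ∂ga := integral_prod _ hint
  have e2 : ∀ s, ∫ x, Phi (F (Fin.cons s x)) ∂(gpi (Fin n)) = Phi (bar F s) := by
    intro s
    unfold bar
    rw [Phi_Psi (lt_of_lt_of_le (Phi_pos _) (bar_mem hF hb s).1)
      (lt_of_le_of_lt (bar_mem hF hb s).2 (Phi_lt_one _))]
  simp_rw [e2] at e1
  rw [← e1]
  congr 1
  funext p
  simp [MeasurableEquiv.piFinSuccAbove, Fin.insertNthEquiv]

theorem fin_dim {S l m : ℝ} (hl : 0 < l) (hm : 0 < m) (hlm : l + m = 1) (n : ℕ) :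
    ∀ {F G H : (Fin n → ℝ) → ℝ}, Continuous F → Continuous G → Continuous H →
    (∀ x, |F x| ≤ S) → (∀ x, |G x| ≤ S) → (∀ x, |H x| ≤ S) →
    (∀ x y, l * F x + m * G y ≤ H (l • x + m • y)) →
    l * Psi (∫ x, Phi (F x) ∂(gpi (Fin n))) + m * Psi (∫ x, Phi (G x) ∂(gpi (Fin n)))
      ≤ Psi (∫ x, Phi (H x) ∂(gpi (Fin n))) := by
  induction n with
  | zero =>
    intro F G H hF hG hH bF bG bH hyp
    have e : ∀ F : (Fin 0 → ℝ) → ℝ, ∫ x, Phi (F x) ∂(gpi (Fin 0)) = Phi (F isEmptyElim) := by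
      intro F
      unfold gpi
      rw [Measure.pi_of_empty (fun _ : Fin 0 => ga), integral_dirac]
    rw [e, e, e, Psi_Phi, Psi_Phi, Psi_Phi]
    have := hyp isEmptyElim isEmptyElim
    have h0 : l • (isEmptyElim : Fin 0 → ℝ) + m • (isEmptyElim : Fin 0 → ℝ) = isEmptyElim :=
      Subsingleton.elim _ _
    rw [h0] at this
    exact this
  | succ n ih =>
    intro F G H hF hG hH bF bG bH hyp
    rw [int_succ hF bF, int_succ hG bG, int_succ hH bH]
    apply one_dim hl hm hlm (bar_cont hF bF) (bar_cont hG bG) (bar_cont hH bH)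
      (bar_abs hF bF) (bar_abs hG bG) (bar_abs hH bH)
    intro s t
    unfold bar
    have cc : ∀ {F : (Fin (n + 1) → ℝ) → ℝ} (s : ℝ), Continuous F →
        Continuous (fun x : Fin n → ℝ => F (Fin.cons s x)) := fun s hF =>
      hF.comp (cons_cont.comp (by fun_prop : Continuous fun x : Fin n → ℝ => (s, x)))
    apply ih (cc s hF) (cc t hG) (cc _ hH) (fun _ => bF _) (fun _ => bG _) (fun _ => bH _)
    intro x y
    have h := hyp (Fin.cons s x) (Fin.cons t y)
    convert h using 2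
    funext i
    refine Fin.cases ?_ (fun j => ?_) i
    · simp
    · simp

theorem fintype_dim {ι : Type*} [Fintype ι] {S l m : ℝ} (hl : 0 < l) (hm : 0 < m) (hlm : l + m = 1)
    {F G H : (ι → ℝ) → ℝ} (hF : Continuous F) (hG : Continuous G) (hH : Continuous H)
    (bF : ∀ x, |F x| ≤ S) (bG : ∀ x, |G x| ≤ S) (bH : ∀ x, |H x| ≤ S)
    (hyp : ∀ x y, l * F x + m * G y ≤ H (l • x + m • y)) :
    l * Psi (∫ x, Phi (F x) ∂(gpi ι)) + m * Psi (∫ x, Phi (G x) ∂(gpi ι))
      ≤ Psi (∫ x, Phi (H x) ∂(gpi ι)) := by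
  let e := (Fintype.equivFin ι).symm
  let c : (Fin (Fintype.card ι) → ℝ) → (ι → ℝ) := fun x i => x (e.symm i)
  have hc : Continuous c := continuous_pi fun i => continuous_apply _
  have key : ∀ F : (ι → ℝ) → ℝ, ∫ x, Phi (F x) ∂(gpi ι)
      = ∫ x, Phi (F (c x)) ∂(gpi (Fin (Fintype.card ι))) := by
    intro F
    have h := (measurePreserving_piCongrLeft (fun _ : ι => ga) e)
    rw [← h.integral_comp']
    congr 1
    funext x
    congr 2
    funext i
    obtain ⟨j, rfl⟩ := e.surjective i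
    simp only [c, Equiv.symm_apply_apply]
    exact MeasurableEquiv.piCongrLeft_apply_apply (β := fun _ => ℝ) e x j
  rw [key F, key G, key H]
  apply fin_dim hl hm hlm _ (hF.comp hc) (hG.comp hc) (hH.comp hc) (fun _ => bF _) (fun _ => bG _)
    (fun _ => bH _)
  intro x y
  exact hyp (c x) (c y)

end Ehr
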