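import Mathlib

/-!
# Taylor estimates and the one step comparison
-/

open Set

namespace Ehr

/-- `F` is twice differentiable, bounded by `S`, derivatives bounded by `K`, `F2` is `K`-Lipschitz -/
structure Adm (S K : ℝ) (F F1 F2 : ℝ → ℝ) : Prop where
  bd : ∀ x, |F x| ≤ S
  d1 : ∀ x, HasDerivAt F (F1 x) x
  d2 : ∀ x, HasDerivAt F1 (F2 x) x
  b1 : ∀ x, |F1 x| ≤ K
  b2 : ∀ x, |F2 x| ≤ K
  l2 : ∀ x y, |F2 x - F2 y| ≤ K * |x - y|

/-- mean value estimate: if `g 0 = 0` and `|g'| ≤ C` on the segment then `|g s| ≤ C |s|` -/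
lemma mv {g g' : ℝ → ℝ} {s C : ℝ} (h0 : g 0 = 0) (hd : ∀ t, HasDerivAt g (g' t) t)
    (hb : ∀ t, |t| ≤ |s| → |g' t| ≤ C) : |g s| ≤ C * |s| := by
  have h := Convex.norm_image_sub_le_of_norm_hasDerivWithin_le (f := g) (f' := g') (C := C)
    (s := Icc (-|s|) |s|) (x := 0) (y := s) (fun z _ => (hd z).hasDerivWithinAt)
    (fun z hz => by rw [Real.norm_eq_abs]; exact hb z (abs_le.2 hz))
    (convex_Icc _ _) ⟨by simp, by simp⟩ ⟨neg_abs_le s, le_abs_self s⟩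
  simpa [Real.norm_eq_abs, h0] using h

lemma taylor1 {F F1 F2 : ℝ → ℝ} {K : ℝ} (d1 : ∀ x, HasDerivAt F (F1 x) x)
    (d2 : ∀ x, HasDerivAt F1 (F2 x) x) (b2 : ∀ x, |F2 x| ≤ K) (x s : ℝ) :
    |F (x + s) - F x - s * F1 x| ≤ K * s ^ 2 := by
  have e1 : ∀ t, HasDerivAt (fun t => F1 (x + t) - F1 x) (F2 (x + t)) t := by
    intro t
    have := (d2 (x + t)).comp_const_add x t
    simpa using this.sub_const (F1 x)
  have h1 : ∀ t, |F1 (x + t) - F1 x| ≤ K * |t| := fun t =>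
    mv (g := fun t => F1 (x + t) - F1 x) (by simp) e1 (fun u _ => b2 _)
  have e2 : ∀ t, HasDerivAt (fun t => F (x + t) - F x - t * F1 x) (F1 (x + t) - F1 x) t := by
    intro t
    have h := (((d1 (x + t)).comp_const_add x t).sub_const (F x)).fun_sub
      ((hasDerivAt_id' t).mul_const (F1 x))
    simpa using h
  have h2 := mv (g := fun t => F (x + t) - F x - t * F1 x) (s := s) (C := K * |s|) (by simp) e2
    (fun t ht => (h1 t).trans (by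
      have hK : 0 ≤ K := le_trans (abs_nonneg _) (b2 0)
      gcongr))
  calc _ ≤ _ := h2
    _ = K * s ^ 2 := by rw [mul_assoc, ← sq, sq_abs]

lemma taylor2 {F F1 F2 : ℝ → ℝ} {K : ℝ} (hK : 0 ≤ K) (d1 : ∀ x, HasDerivAt F (F1 x) x)
    (d2 : ∀ x, HasDerivAt F1 (F2 x) x) (l2 : ∀ x y, |F2 x - F2 y| ≤ K * |x - y|) (x s : ℝ) :
    |F (x + s) - F x - s * F1 x - s ^ 2 / 2 * F2 x| ≤ K * |s| ^ 3 := by
  have e1 : ∀ t, HasDerivAt (fun t => F1 (x + t) - F1 x - t * F2 x) (F2 (x + t) - F2 x) t := by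
    intro t
    have h := (((d2 (x + t)).comp_const_add x t).sub_const (F1 x)).fun_sub
      ((hasDerivAt_id' t).mul_const (F2 x))
    simpa using h
  have h1 : ∀ t, |F1 (x + t) - F1 x - t * F2 x| ≤ (K * |t|) * |t| := fun t =>
    mv (g := fun t => F1 (x + t) - F1 x - t * F2 x) (by simp) e1 (fun u hu => by
      have := l2 (x + u) x
      have h3 : x + u - x = u := by ring
      rw [h3] at this
      refine this.trans ?_
      gcongr)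
  have e2 : ∀ t, HasDerivAt (fun t => F (x + t) - F x - t * F1 x - t ^ 2 / 2 * F2 x)
      (F1 (x + t) - F1 x - t * F2 x) t := by
    intro t
    have hsq : HasDerivAt (fun t : ℝ => t ^ 2 / 2 * F2 x) (t * F2 x) t := by
      have h0 : HasDerivAt (fun t : ℝ => t ^ 2) (2 * t) t := by simpa using hasDerivAt_pow 2 t
      exact ((h0.div_const 2).mul_const (F2 x)).congr_deriv (by ring)
    have h := ((((d1 (x + t)).comp_const_add x t).sub_const (F x)).fun_sub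
      ((hasDerivAt_id' t).mul_const (F1 x))).fun_sub hsq
    simpa using h
  have h2 := mv (g := fun t => F (x + t) - F x - t * F1 x - t ^ 2 / 2 * F2 x) (s := s)
    (C := (K * |s|) * |s|) (by simp) e2 (fun t ht => (h1 t).trans (by gcongr))
  calc _ ≤ _ := h2
    _ = K * |s| ^ 3 := by ring

/-- first order comparison: slack controls the difference of the derivatives -/
lemma first {K l D c : ℝ} (hK : 0 < K) (hl : 0 < l) (hl1 : l ≤ 1)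
    {F F1 F2 H H1 H2 : ℝ → ℝ}
    (dF1 : ∀ x, HasDerivAt F (F1 x) x) (dF2 : ∀ x, HasDerivAt F1 (F2 x) x) (bF : ∀ x, |F2 x| ≤ K)
    (dH1 : ∀ x, HasDerivAt H (H1 x) x) (dH2 : ∀ x, HasDerivAt H1 (H2 x) x) (bH : ∀ x, |H2 x| ≤ K)
    (x z : ℝ) (hyp : ∀ ξ, l * F (x + ξ) + c ≤ H (z + l * ξ) + D) :
    (l * (F1 x - H1 z)) ^ 2 ≤ 8 * K * (D - (l * F x + c - H z)) := by
  obtain ⟨ξ, hξ⟩ : ∃ ξ, ξ = l * (F1 x - H1 z) / (4 * K) := ⟨_, rfl⟩
  have t1 := (abs_le.1 (taylor1 dF1 dF2 bF x ξ)).1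
  have t2 := (abs_le.1 (taylor1 dH1 dH2 bH z (l * ξ))).2
  have t3 := hyp ξ
  have t4 := mul_le_mul_of_nonneg_left t1 hl.le
  have hx2 : 0 ≤ K * ξ ^ 2 := by positivity
  have t5 : K * (l * ξ) ^ 2 ≤ K * ξ ^ 2 := by
    have h1 : l ^ 2 ≤ 1 := pow_le_one₀ hl.le hl1
    calc K * (l * ξ) ^ 2 = l ^ 2 * (K * ξ ^ 2) := by ring
      _ ≤ 1 * (K * ξ ^ 2) := mul_le_mul_of_nonneg_right h1 hx2
      _ = _ := one_mul _
  have t6 : l * (K * ξ ^ 2) ≤ K * ξ ^ 2 := by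
    calc l * (K * ξ ^ 2) ≤ 1 * (K * ξ ^ 2) := mul_le_mul_of_nonneg_right hl1 hx2
      _ = _ := one_mul _
  have t7 : ξ * (l * (F1 x - H1 z)) - 2 * (K * ξ ^ 2) ≤ D - (l * F x + c - H z) := by
    linarith
  have t8 : ξ * (l * (F1 x - H1 z)) - 2 * (K * ξ ^ 2) = (l * (F1 x - H1 z)) ^ 2 / (8 * K) := by
    rw [hξ]; field_simp; ring
  rw [t8, div_le_iff₀ (by positivity)] at t7
  linarith

/-- second order comparison -/
lemma second {K l m D r : ℝ} (hK : 0 < K) (hl : 0 < l) (hm : 0 < m)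
    (hlm : l + m = 1) (hr : 0 < r)
    {F F1 F2 G G1 G2 H H1 H2 : ℝ → ℝ} {S : ℝ}
    (aF : Adm S K F F1 F2) (aG : Adm S K G G1 G2) (aH : Adm S K H H1 H2)
    (hyp : ∀ x y, l * F x + m * G y ≤ H (l * x + m * y) + D) (x y : ℝ) :
    r ^ 2 / 2 * (l * F2 x + m * G2 y - H2 (l * x + m * y))
      ≤ (D - (l * F x + m * G y - H (l * x + m * y))) / 4 + 4 * K * r ^ 3 := by
  obtain ⟨z, hz⟩ : ∃ z, z = l * x + m * y := ⟨_, rfl⟩
  have f1 := (abs_le.1 (taylor2 hK.le aF.d1 aF.d2 aF.l2 x (2 * r))).1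
  have f2 := (abs_le.1 (taylor2 hK.le aF.d1 aF.d2 aF.l2 x (-(2 * r)))).1
  have g1 := (abs_le.1 (taylor2 hK.le aG.d1 aG.d2 aG.l2 y (2 * r))).1
  have g2 := (abs_le.1 (taylor2 hK.le aG.d1 aG.d2 aG.l2 y (-(2 * r)))).1
  have h1 := (abs_le.1 (taylor2 hK.le aH.d1 aH.d2 aH.l2 z (2 * r))).2
  have h2 := (abs_le.1 (taylor2 hK.le aH.d1 aH.d2 aH.l2 z (-(2 * r)))).2
  have i1 := hyp (x + 2 * r) (y + 2 * r)
  have i2 := hyp (x + -(2 * r)) (y + -(2 * r))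
  have e1 : l * (x + 2 * r) + m * (y + 2 * r) = z + 2 * r := by
    rw [hz]; linear_combination (2 * r) * hlm
  have e2 : l * (x + -(2 * r)) + m * (y + -(2 * r)) = z + -(2 * r) := by
    rw [hz]; linear_combination (-(2 * r)) * hlm
  rw [e1] at i1
  rw [e2] at i2
  rw [← hz]
  have ab : |2 * r| ^ 3 = 8 * r ^ 3 := by rw [abs_of_pos (by positivity)]; ring
  rw [ab] at f1 g1 h1
  rw [abs_neg, ab] at f2 g2 h2
  have j1 := mul_le_mul_of_nonneg_left f1 hl.le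
  have j2 := mul_le_mul_of_nonneg_left f2 hl.le
  have j3 := mul_le_mul_of_nonneg_left g1 hm.le
  have j4 := mul_le_mul_of_nonneg_left g2 hm.le
  have j5 : l * (-(K * (8 * r ^ 3))) + m * (-(K * (8 * r ^ 3))) = -(K * (8 * r ^ 3)) := by
    linear_combination (-(K * (8 * r ^ 3))) * hlm
  obtain ⟨a, ha⟩ : ∃ a, a = l * F (x + 2 * r) := ⟨_, rfl⟩
  obtain ⟨b, hb⟩ : ∃ b, b = l * F (x + -(2 * r)) := ⟨_, rfl⟩
  obtain ⟨c, hc⟩ : ∃ c, c = m * G (y + 2 * r) := ⟨_, rfl⟩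
  obtain ⟨d, hd⟩ : ∃ d, d = m * G (y + -(2 * r)) := ⟨_, rfl⟩
  rw [← ha, ← hc] at i1
  rw [← hb, ← hd] at i2
  have k1 : l * (F (x + 2 * r) - F x - 2 * r * F1 x - (2 * r) ^ 2 / 2 * F2 x)
      = a - l * F x - 2 * r * (l * F1 x) - 2 * (r ^ 2 * (l * F2 x)) := by rw [ha]; ring
  have k2 : l * (F (x + -(2 * r)) - F x - -(2 * r) * F1 x - (-(2 * r)) ^ 2 / 2 * F2 x)
      = b - l * F x + 2 * r * (l * F1 x) - 2 * (r ^ 2 * (l * F2 x)) := by rw [hb]; ring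
  have k3 : m * (G (y + 2 * r) - G y - 2 * r * G1 y - (2 * r) ^ 2 / 2 * G2 y)
      = c - m * G y - 2 * r * (m * G1 y) - 2 * (r ^ 2 * (m * G2 y)) := by rw [hc]; ring
  have k4 : m * (G (y + -(2 * r)) - G y - -(2 * r) * G1 y - (-(2 * r)) ^ 2 / 2 * G2 y)
      = d - m * G y + 2 * r * (m * G1 y) - 2 * (r ^ 2 * (m * G2 y)) := by rw [hd]; ring
  rw [k1] at j1
  rw [k2] at j2
  rw [k3] at j3
  rw [k4] at j4
  have k5 : H (z + 2 * r) - H z - 2 * r * H1 z - (2 * r) ^ 2 / 2 * H2 z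
      = H (z + 2 * r) - H z - 2 * r * H1 z - 2 * (r ^ 2 * H2 z) := by ring
  have k6 : H (z + -(2 * r)) - H z - -(2 * r) * H1 z - (-(2 * r)) ^ 2 / 2 * H2 z
      = H (z + -(2 * r)) - H z + 2 * r * H1 z - 2 * (r ^ 2 * H2 z) := by ring
  rw [k5] at h1
  rw [k6] at h2
  have k7 : r ^ 2 / 2 * (l * F2 x + m * G2 y - H2 z)
      = (1 / 2) * (r ^ 2 * (l * F2 x) + r ^ 2 * (m * G2 y) - r ^ 2 * H2 z) := by ring
  rw [k7]
  linarith

/-- the cubic terms (pure algebra) -/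
lemma cubic {S K l m κ r f g h f1 g1 h1 : ℝ} (hS : 0 ≤ S) (hK : 0 < K)
    (hr : 0 < r) (hr1 : r ≤ 1) (hrK : 2 * r ^ 2 * K ^ 2 ≤ 1) (hκ : 0 ≤ κ)
    (hf : |f| ≤ S) (hg : |g| ≤ S) (hf1 : |f1| ≤ K) (hg1 : |g1| ≤ K) (hh1 : |h1| ≤ K)
    (hΔ : -(l * f + m * g - h) ≤ κ)
    (c1 : (l * (f1 - h1)) ^ 2 ≤ 8 * K * κ) (c2 : (m * (g1 - h1)) ^ 2 ≤ 8 * K * κ) :
    r ^ 2 / 2 * (h * h1 ^ 2 - l * (f * f1 ^ 2) - m * (g * g1 ^ 2))
      ≤ κ / 2 + 32 * S ^ 2 * K ^ 3 * r ^ 3 := by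
  obtain ⟨q, hq⟩ : ∃ q, q = Real.sqrt (8 * K * κ) := ⟨_, rfl⟩
  have hq2 : q ^ 2 = 8 * K * κ := by rw [hq]; exact Real.sq_sqrt (by positivity)
  have hq0 : 0 ≤ q := by rw [hq]; exact Real.sqrt_nonneg _
  have u1 : |l * (f1 - h1)| ≤ q := by
    rw [hq]; exact Real.le_sqrt_of_sq_le (by rw [sq_abs]; exact c1)
  have u2 : |m * (g1 - h1)| ≤ q := by
    rw [hq]; exact Real.le_sqrt_of_sq_le (by rw [sq_abs]; exact c2)
  have v1 : l * (f * (h1 ^ 2 - f1 ^ 2)) ≤ 2 * S * K * q := by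
    have : l * (f * (h1 ^ 2 - f1 ^ 2)) = -(f * (l * (f1 - h1)) * (h1 + f1)) := by ring
    rw [this]
    refine (neg_le_abs _).trans ?_
    rw [abs_mul, abs_mul]
    have w2 : |h1 + f1| ≤ 2 * K := (abs_add_le _ _).trans (by linarith)
    calc |f| * |l * (f1 - h1)| * |h1 + f1| ≤ S * q * (2 * K) := by gcongr
      _ = 2 * S * K * q := by ring
  have v2 : m * (g * (h1 ^ 2 - g1 ^ 2)) ≤ 2 * S * K * q := by
    have : m * (g * (h1 ^ 2 - g1 ^ 2)) = -(g * (m * (g1 - h1)) * (h1 + g1)) := by ring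
    rw [this]
    refine (neg_le_abs _).trans ?_
    rw [abs_mul, abs_mul]
    have w2 : |h1 + g1| ≤ 2 * K := (abs_add_le _ _).trans (by linarith)
    calc |g| * |m * (g1 - h1)| * |h1 + g1| ≤ S * q * (2 * K) := by gcongr
      _ = 2 * S * K * q := by ring
  have v3 : -(l * f + m * g - h) * h1 ^ 2 ≤ κ * K ^ 2 := by
    have w2 : h1 ^ 2 ≤ K ^ 2 := by
      rw [← sq_abs]
      exact pow_le_pow_left₀ (abs_nonneg _) hh1 2
    calc _ ≤ κ * h1 ^ 2 := mul_le_mul_of_nonneg_right hΔ (sq_nonneg _)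
      _ ≤ κ * K ^ 2 := mul_le_mul_of_nonneg_left w2 hκ
  have v4 : h * h1 ^ 2 - l * (f * f1 ^ 2) - m * (g * g1 ^ 2) ≤ 4 * S * K * q + κ * K ^ 2 := by
    have : h * h1 ^ 2 - l * (f * f1 ^ 2) - m * (g * g1 ^ 2) = l * (f * (h1 ^ 2 - f1 ^ 2))
        + m * (g * (h1 ^ 2 - g1 ^ 2)) + -(l * f + m * g - h) * h1 ^ 2 := by ring
    rw [this]; linarith
  have v5 := mul_le_mul_of_nonneg_left v4 (show (0 : ℝ) ≤ r ^ 2 / 2 by positivity)
  have v6 : r ^ 2 / 2 * (κ * K ^ 2) ≤ κ / 4 := by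
    have := mul_le_mul_of_nonneg_right hrK hκ
    nlinarith
  have v7 : 2 * S * K * r ^ 2 * q ≤ κ / 4 + 32 * S ^ 2 * K ^ 3 * r ^ 4 := by
    have h8 : 0 ≤ (q - 16 * K * (2 * S * K * r ^ 2)) ^ 2 := sq_nonneg _
    have h9 : (q - 16 * K * (2 * S * K * r ^ 2)) ^ 2
        = 32 * K * ((κ / 4 + 32 * S ^ 2 * K ^ 3 * r ^ 4) - 2 * S * K * r ^ 2 * q) := by
      linear_combination hq2
    rw [h9] at h8
    have := nonneg_of_mul_nonneg_right h8 (by positivity)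
    linarith
  have v8 : 32 * S ^ 2 * K ^ 3 * r ^ 4 ≤ 32 * S ^ 2 * K ^ 3 * r ^ 3 := by
    apply mul_le_mul_of_nonneg_left _ (by positivity)
    exact pow_le_pow_of_le_one hr.le hr1 (by norm_num)
  have v9 : r ^ 2 / 2 * (4 * S * K * q + κ * K ^ 2)
      = 2 * S * K * r ^ 2 * q + r ^ 2 / 2 * (κ * K ^ 2) := by ring
  rw [v9] at v5
  linarith

/-- the key step -/
theorem key {S K K' l m D r : ℝ} (hS : 0 ≤ S) (hK : 0 < K) (hl : 0 < l) (hm : 0 < m)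
    (hlm : l + m = 1) (hD : 0 ≤ D) (hr : 0 < r) (hr1 : r ≤ 1) (hrK : 2 * r ^ 2 * K ^ 2 ≤ 1)
    {F F1 F2 G G1 G2 H H1 H2 Ft Gt Ht : ℝ → ℝ}
    (aF : Adm S K F F1 F2) (aG : Adm S K G G1 G2) (aH : Adm S K H H1 H2)
    (hFt : ∀ x, |Ft x - F x - r ^ 2 / 2 * (F2 x - F x * F1 x ^ 2)| ≤ K' * r ^ 3)
    (hGt : ∀ x, |Gt x - G x - r ^ 2 / 2 * (G2 x - G x * G1 x ^ 2)| ≤ K' * r ^ 3)
    (hHt : ∀ x, |Ht x - H x - r ^ 2 / 2 * (H2 x - H x * H1 x ^ 2)| ≤ K' * r ^ 3)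
    (hyp : ∀ x y, l * F x + m * G y ≤ H (l * x + m * y) + D) (x y : ℝ) :
    l * Ft x + m * Gt y ≤ Ht (l * x + m * y) + (D + (4 * K + 32 * S ^ 2 * K ^ 3 + 2 * K') * r ^ 3) := by
  have hκ0 : 0 ≤ D - (l * F x + m * G y - H (l * x + m * y)) := by linarith [hyp x y]
  have hl1 : l ≤ 1 := by linarith
  have hm1 : m ≤ 1 := by linarith
  have c1 := first (D := D) (c := m * G y) hK hl hl1 aF.d1 aF.d2 aF.b2 aH.d1 aH.d2 aH.b2 x
    (l * x + m * y) (fun ξ => by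
      have := hyp (x + ξ) y
      rwa [show l * (x + ξ) + m * y = l * x + m * y + l * ξ by ring] at this)
  have c2 := first (D := D) (c := l * F x) hK hm hm1 aG.d1 aG.d2 aG.b2 aH.d1 aH.d2 aH.b2 y
    (l * x + m * y) (fun ξ => by
      have := hyp x (y + ξ)
      rw [show l * x + m * (y + ξ) = l * x + m * y + m * ξ by ring] at this
      linarith)
  have c3 := second hK hl hm hlm hr aF aG aH hyp x y
  obtain ⟨z, hz⟩ : ∃ z, z = l * x + m * y := ⟨_, rfl⟩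
  rw [← hz] at c1 c2 c3 hκ0 ⊢
  obtain ⟨κ, hκ⟩ : ∃ κ, κ = D - (l * F x + m * G y - H z) := ⟨_, rfl⟩
  have c2' : (m * (G1 y - H1 z)) ^ 2 ≤ 8 * K * κ := by
    rw [hκ, show l * F x + m * G y - H z = m * G y + l * F x - H z by ring]; exact c2
  rw [← hκ] at c1 c3 hκ0
  have c4 := cubic (f := F x) (g := G y) (h := H z) hS hK hr hr1 hrK hκ0 (aF.bd x) (aG.bd y)
    (aF.b1 x) (aG.b1 y) (aH.b1 z) (by rw [hκ]; linarith) c1 c2'
  have p1 := (abs_le.1 (hFt x)).2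
  have p2 := (abs_le.1 (hGt y)).2
  have p3 := (abs_le.1 (hHt z)).1
  have q1 := mul_le_mul_of_nonneg_left p1 hl.le
  have q2 := mul_le_mul_of_nonneg_left p2 hm.le
  have q3 : l * (K' * r ^ 3) + m * (K' * r ^ 3) = K' * r ^ 3 := by
    linear_combination (K' * r ^ 3) * hlm
  have q6 : r ^ 2 / 2 * (l * F2 x + m * G2 y - H2 z)
      + r ^ 2 / 2 * (H z * H1 z ^ 2 - l * (F x * F1 x ^ 2) - m * (G y * G1 y ^ 2))
      = l * (r ^ 2 / 2 * (F2 x - F x * F1 x ^ 2))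
      + m * (r ^ 2 / 2 * (G2 y - G y * G1 y ^ 2)) - r ^ 2 / 2 * (H2 z - H z * H1 z ^ 2) := by
    ring
  have q7 : l * (Ft x - F x - r ^ 2 / 2 * (F2 x - F x * F1 x ^ 2))
      = l * Ft x - l * F x - l * (r ^ 2 / 2 * (F2 x - F x * F1 x ^ 2)) := by ring
  have q8 : m * (Gt y - G y - r ^ 2 / 2 * (G2 y - G y * G1 y ^ 2))
      = m * Gt y - m * G y - m * (r ^ 2 / 2 * (G2 y - G y * G1 y ^ 2)) := by ring
  rw [q7] at q1
  rw [q8] at q2
  have q9 : (4 * K + 32 * S ^ 2 * K ^ 3 + 2 * K') * r ^ 3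
      = 4 * K * r ^ 3 + 32 * S ^ 2 * K ^ 3 * r ^ 3 + 2 * (K' * r ^ 3) := by ring
  rw [q9]
  linarith

end Ehr
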