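import Pool.Agent.W_7d29a1_ehr.Phi
import Pool.Agent.W_7d29a1_ehr.Step

/-!
# The smooth class and one Gaussian step
-/

open MeasureTheory ProbabilityTheory Set Filter Topology

namespace Ehr

/-- values in `[Phi (-S), Phi S]`, twice differentiable with derivatives bounded by `M`,
second derivative `M`-Lipschitz -/
structure Fc (S M : ℝ) (f f1 f2 : ℝ → ℝ) : Prop where
  lo : ∀ x, Phi (-S) ≤ f x
  hi : ∀ x, f x ≤ Phi S
  d1 : ∀ x, HasDerivAt f (f1 x) x
  d2 : ∀ x, HasDerivAt f1 (f2 x) x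
  b1 : ∀ x, |f1 x| ≤ M
  b2 : ∀ x, |f2 x| ≤ M
  l2 : ∀ x y, |f2 x - f2 y| ≤ M * |x - y|

/-- one Gaussian step -/
noncomputable def P (r : ℝ) (f : ℝ → ℝ) (x : ℝ) : ℝ := ∫ y, f (x + r * y) ∂ga

lemma int_bd {f : ℝ → ℝ} {C : ℝ} (hf : Continuous f) (hb : ∀ x, |f x| ≤ C) (x r : ℝ) :
    Integrable (fun y => f (x + r * y)) ga := by
  apply Integrable.of_bound (C := C) (by fun_prop)
  exact ae_of_all _ fun y => by rw [Real.norm_eq_abs]; exact hb _

lemma P_abs {f : ℝ → ℝ} {C : ℝ} (hb : ∀ x, |f x| ≤ C) (x r : ℝ) :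
    |P r f x| ≤ C := by
  unfold P
  have h := norm_integral_le_of_norm_le_const (μ := ga) (f := fun y => f (x + r * y)) (C := C)
    (ae_of_all _ fun y => by rw [Real.norm_eq_abs]; exact hb _)
  simpa [Real.norm_eq_abs] using h

lemma P_mono {f g : ℝ → ℝ} {C C' : ℝ} (hf : Continuous f) (hbf : ∀ x, |f x| ≤ C)
    (hg : Continuous g) (hbg : ∀ x, |g x| ≤ C') (h : ∀ x, f x ≤ g x) (x r : ℝ) :
    P r f x ≤ P r g x :=
  integral_mono (int_bd hf hbf x r) (int_bd hg hbg x r) fun y => h _

lemma P_const (c x r : ℝ) : P r (fun _ => c) x = c := by simp [P]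

lemma P_deriv {f f1 : ℝ → ℝ} {C M : ℝ} (hd : ∀ x, HasDerivAt f (f1 x) x) (hb : ∀ x, |f x| ≤ C)
    (h1 : Continuous f1) (hb1 : ∀ x, |f1 x| ≤ M) (r x : ℝ) :
    HasDerivAt (P r f) (P r f1 x) x := by
  have hf : Continuous f := continuous_iff_continuousAt.2 fun x => (hd x).continuousAt
  have h := hasDerivAt_integral_of_dominated_loc_of_deriv_le (μ := ga)
    (F := fun x y => f (x + r * y)) (F' := fun x y => f1 (x + r * y)) (x₀ := x) (s := univ)
    (bound := fun _ => M) univ_mem
    (Eventually.of_forall fun x => (by fun_prop : Continuous fun y => f (x + r * y)).aestronglyMeasurable)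
    (int_bd hf hb x r)
    ((by fun_prop : Continuous fun y => f1 (x + r * y)).aestronglyMeasurable)
    (ae_of_all _ fun y x _ => by rw [Real.norm_eq_abs]; exact hb1 _)
    (integrable_const _)
    (ae_of_all _ fun y x _ => by
      have := (hd (x + r * y)).comp_add_const x (r * y)
      exact this)
  exact h.2

lemma P_fc {S M : ℝ} {f f1 f2 : ℝ → ℝ} (h : Fc S M f f1 f2) (r : ℝ) :
    Fc S M (P r f) (P r f1) (P r f2) := by
  have hf : Continuous f := continuous_iff_continuousAt.2 fun x => (h.d1 x).continuousAt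
  have hf1 : Continuous f1 := continuous_iff_continuousAt.2 fun x => (h.d2 x).continuousAt
  have hf2 : Continuous f2 := by
    have hM : 0 ≤ M := le_trans (abs_nonneg _) (h.b1 0)
    have : LipschitzWith M.toNNReal f2 := LipschitzWith.of_dist_le_mul fun x y => by
      rw [Real.dist_eq, Real.dist_eq, Real.coe_toNNReal _ hM]; exact h.l2 x y
    exact this.continuous
  have hb : ∀ x, |f x| ≤ 1 := fun x => by
    rw [abs_le]
    have h1 := h.lo x
    have h2 := h.hi x
    have h3 := Phi_pos (-S)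
    have h4 := Phi_le_one S
    constructor <;> linarith
  refine ⟨fun x => ?_, fun x => ?_, P_deriv h.d1 hb hf1 h.b1 r, P_deriv h.d2 h.b1 hf2 h.b2 r,
    fun x => P_abs h.b1 x r, fun x => P_abs h.b2 x r, fun x y => ?_⟩
  · rw [← P_const (Phi (-S)) x r]
    exact P_mono continuous_const (fun _ => le_rfl) hf hb h.lo x r
  · rw [← P_const (Phi S) x r]
    exact P_mono hf hb continuous_const (fun _ => le_rfl) h.hi x r
  · unfold P
    rw [← integral_sub (int_bd hf2 h.b2 x r) (int_bd hf2 h.b2 y r)]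
    have h := norm_integral_le_of_norm_le_const (μ := ga)
      (f := fun z => f2 (x + r * z) - f2 (y + r * z)) (C := M * |x - y|)
      (ae_of_all _ fun z => by
        rw [Real.norm_eq_abs]
        have := h.l2 (x + r * z) (y + r * z)
        rwa [show x + r * z - (y + r * z) = x - y by ring] at this)
    simpa [Real.norm_eq_abs] using h

/-- third absolute moment -/
noncomputable def C3 : ℝ := ∫ y, |y| ^ 3 ∂ga

lemma int_pow (n : ℕ) : Integrable (fun y : ℝ => |y| ^ n) ga := by
  have h := (memLp_id_gaussianReal (μ := 0) (v := 1) (n : NNReal)).integrable_norm_pow'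
  simpa [Real.norm_eq_abs] using h

lemma int_id : Integrable (fun y : ℝ => y) ga := by
  have h := (memLp_id_gaussianReal (μ := 0) (v := 1) (1 : NNReal)).integrable (by simp)
  exact h

lemma int_sq : Integrable (fun y : ℝ => y ^ 2) ga := by
  have h := int_pow 2
  simpa using h

lemma C3_nonneg : 0 ≤ C3 := integral_nonneg fun y => by positivity

lemma mean_id : ∫ y, y ∂ga = 0 := by simp

lemma mean_sq : ∫ y, y ^ 2 ∂ga = 1 := by
  have h := variance_fun_id_gaussianReal (μ := 0) (v := 1)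
  rw [variance_eq_integral (by fun_prop)] at h
  simpa using h

lemma P_exp {S M : ℝ} {f f1 f2 : ℝ → ℝ} (h : Fc S M f f1 f2) {r : ℝ} (hr : 0 ≤ r) (x : ℝ) :
    |P r f x - f x - r ^ 2 / 2 * f2 x| ≤ M * C3 * r ^ 3 := by
  have hM : 0 ≤ M := le_trans (abs_nonneg _) (h.b1 0)
  have hf : Continuous f := continuous_iff_continuousAt.2 fun x => (h.d1 x).continuousAt
  have hb : ∀ x, |f x| ≤ 1 := fun x => by
    rw [abs_le]
    have h1 := h.lo x
    have h2 := h.hi x
    have h3 := Phi_pos (-S)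
    have h4 := Phi_le_one S
    constructor <;> linarith
  have i1 := int_bd hf hb x r
  have e : P r f x - f x - r ^ 2 / 2 * f2 x
      = ∫ y, (f (x + r * y) - f x - (r * y) * f1 x - (r * y) ^ 2 / 2 * f2 x) ∂ga := by
    have e1 : ∀ y : ℝ, f (x + r * y) - f x - (r * y) * f1 x - (r * y) ^ 2 / 2 * f2 x
        = f (x + r * y) - (f x + (r * f1 x) * y + (r ^ 2 / 2 * f2 x) * y ^ 2) := by
      intro y; ring
    simp_rw [e1]
    have i2 : Integrable (fun y : ℝ => (r * f1 x) * y) ga := int_id.const_mul _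
    have i3 : Integrable (fun y : ℝ => (r ^ 2 / 2 * f2 x) * y ^ 2) ga := int_sq.const_mul _
    have i4 : Integrable (fun y : ℝ => f x + (r * f1 x) * y) ga := (integrable_const _).add i2
    have i5 : Integrable (fun y : ℝ => f x + (r * f1 x) * y + (r ^ 2 / 2 * f2 x) * y ^ 2) ga :=
      i4.add i3
    rw [integral_sub i1 i5, integral_add i4 i3, integral_add (integrable_const _) i2,
      integral_const_mul, integral_const_mul, mean_id, mean_sq]
    simp [P]
    ring
  rw [e]
  have h3 : ∀ y : ℝ, |f (x + r * y) - f x - (r * y) * f1 x - (r * y) ^ 2 / 2 * f2 x|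
      ≤ (M * r ^ 3) * |y| ^ 3 := by
    intro y
    have := taylor2 hM h.d1 h.d2 h.l2 x (r * y)
    rw [abs_mul r y, abs_of_nonneg hr] at this
    calc _ ≤ _ := this
      _ = _ := by ring
  calc _ ≤ ∫ y, |f (x + r * y) - f x - (r * y) * f1 x - (r * y) ^ 2 / 2 * f2 x| ∂ga :=
        abs_integral_le_integral_abs
    _ ≤ ∫ y, (M * r ^ 3) * |y| ^ 3 ∂ga := by
        apply integral_mono_of_nonneg (ae_of_all _ fun y => abs_nonneg _)
          ((int_pow 3).const_mul _) (ae_of_all _ h3)
    _ = M * C3 * r ^ 3 := by rw [integral_const_mul]; unfold C3; ring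

end Ehr
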